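import Pool.Agent.H.MP_d06cab_co.Main

namespace Pool.Agent.H.MP_d06cab_co
open SignType Filter Topology Module

variable {V : Type*} [NormedAddCommGroup V] [NormedSpace ℝ V]
variable {E : Type*} {G : Type*}

def face (a : E → V →ₗ[ℝ] ℝ) (x : V) : Set V :=
  {y | (∀ i, sign (a i y) = sign (a i x)) ∨ (∀ i, sign (a i y) = -sign (a i x))}

def faces (a : E → V →ₗ[ℝ] ℝ) : Set (Set V) := {F | ∃ x, x ≠ 0 ∧ F = face a x}

def cellGraph (a : E → V →ₗ[ℝ] ℝ) (d : ℕ) :
    SimpleGraph {F : Set V // F ∈ faces a ∧ finrank ℝ (Submodule.span ℝ F) = d + 1} where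
  Adj F G := F ≠ G ∧ ∃ K ∈ faces a, finrank ℝ (Submodule.span ℝ K) = d ∧
    K ⊆ closure F.1 ∧ K ⊆ closure G.1
  symm := ⟨fun _ _ ⟨h, K, h1, h2, h3, h4⟩ => ⟨h.symm, K, h1, h2, h4, h3⟩⟩
  loopless := ⟨fun _ h => h.1 rfl⟩

variable {a : E → V →ₗ[ℝ] ℝ}

def Le (X Y : E → SignType) : Prop :=
  (∀ i, X i ≠ 0 → X i = Y i) ∨ (∀ i, X i ≠ 0 → X i = -Y i)

noncomputable def sv (a : E → V →ₗ[ℝ] ℝ) (x : V) : E → SignType := fun i => sign (a i x)

lemma mem_face_self (x : V) : x ∈ face a x := Or.inl fun _ => rfl

lemma face_neg (x : V) : face a (-x) = face a x := by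
  ext y; simp only [face, map_neg, Left.sign_neg, neg_neg, Set.mem_ofPred_eq]; exact or_comm

lemma face_eq_of_mem {x y : V} (h : y ∈ face a x) : face a y = face a x := by
  rcases h with h | h
  · simp only [face, h]
  · rw [← face_neg x]; simp only [face, h, map_neg, Left.sign_neg]

lemma sign_of_pos {r s : ℝ} (h : 0 < r * s) : sign r = sign s := by
  rcases pos_and_pos_or_neg_and_neg_of_mul_pos h with ⟨h1, h2⟩ | ⟨h1, h2⟩
  · rw [sign_pos h1, sign_pos h2]
  · rw [sign_neg h1, sign_neg h2]

lemma mem_cl {z y : V} (h : ∀ i, a i z ≠ 0 → sign (a i z) = sign (a i y)) :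
    z ∈ closure (face a y) := by
  have hc : Tendsto (fun ε : ℝ => z + ε • y) (𝓝[>] 0) (𝓝 z) := by
    have : Continuous fun ε : ℝ => z + ε • y := by fun_prop
    have := (this.tendsto 0).mono_left (nhdsWithin_le_nhds (s := Set.Ioi 0))
    simpa using this
  refine mem_closure_of_tendsto hc ?_
  filter_upwards [self_mem_nhdsWithin] with ε hε
  have hε : 0 < ε := hε
  refine Or.inl fun i => ?_
  simp only [map_add, map_smul, smul_eq_mul]
  by_cases hz : a i z = 0
  · rw [hz, zero_add, sign_mul, sign_pos hε, one_mul]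
  · have h1 := h i hz
    rcases lt_or_gt_of_ne hz with h2 | h2
    · rw [sign_neg h2] at h1
      have h3 := sign_eq_neg_one_iff.mp h1.symm
      rw [sign_neg h3, sign_neg (by nlinarith)]
    · rw [sign_pos h2] at h1
      have h3 := sign_eq_one_iff.mp h1.symm
      rw [sign_pos h3, sign_pos (by nlinarith)]

lemma sub_cl_iff [FiniteDimensional ℝ V] (x y : V) :
    face a x ⊆ closure (face a y) ↔ Le (sv a x) (sv a y) := by
  constructor
  · intro h
    let C : V → Set V := fun y => {z | ∀ i, 0 ≤ a i z * a i y ∧ (a i y = 0 → a i z = 0)}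
    have hC : ∀ y, IsClosed (C y) := by
      intro y
      have : C y = ⋂ i, ({z | 0 ≤ a i z * a i y} ∩ {z | a i y = 0 → a i z = 0}) := by
        ext; simp [C]
      rw [this]
      refine isClosed_iInter fun i => ?_
      have := (a i).continuous_of_finiteDimensional
      refine (isClosed_le continuous_const (by fun_prop)).inter ?_
      by_cases h : a i y = 0
      · simp only [h, forall_const]; exact isClosed_eq this continuous_const
      · simp [h]
    have hin : ∀ y z, (∀ i, sign (a i z) = sign (a i y)) → z ∈ C y := by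
      intro y z hz i
      have := hz i
      refine ⟨?_, fun h => by rw [h, sign_zero] at this; exact sign_eq_zero_iff.mp this⟩
      rw [← sign_nonneg_iff, sign_mul, this]
      cases sign (a i y) <;> simp
    have hout : ∀ y, x ∈ C y → ∀ i, sv a x i ≠ 0 → sv a x i = sv a y i := by
      intro y hx i hi
      have h1 : a i x ≠ 0 := by simpa [sv] using hi
      have h2 : a i y ≠ 0 := fun h => h1 ((hx i).2 h)
      exact sign_of_pos (lt_of_le_of_ne (hx i).1 (mul_ne_zero h1 h2).symm)
    have : closure (face a y) ⊆ C y ∪ C (-y) := by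
      refine closure_minimal ?_ ((hC y).union (hC _))
      rintro z (hz | hz)
      · exact Or.inl (hin y z hz)
      · exact Or.inr (hin _ z (by simpa [Left.sign_neg] using hz))
    rcases this (h (mem_face_self x)) with h | h
    · exact Or.inl (hout y h)
    · refine Or.inr fun i hi => ?_
      rw [hout _ h i hi]; simp [sv, Left.sign_neg]
  · have ne : ∀ z i, a i z ≠ 0 → sign (a i z) ≠ 0 := fun z i h => by simpa using h
    rintro (h | h) z (hz | hz)
    · exact mem_cl fun i hi => by
        have := ne z i hi; rw [hz i] at this ⊢; exact h i this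
    · rw [← face_neg]
      exact mem_cl fun i hi => by
        have := ne z i hi
        rw [hz i] at this ⊢
        rw [map_neg, Left.sign_neg]; congr 1; exact h i (by simpa [sv] using this)
    · rw [← face_neg]
      exact mem_cl fun i hi => by
        have := ne z i hi; rw [hz i] at this ⊢
        rw [map_neg, Left.sign_neg]; exact h i this
    · exact mem_cl fun i hi => by
        have := ne z i hi
        rw [hz i] at this ⊢
        have h2 := h i (by simpa [sv] using this)
        simp only [sv] at h2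
        rw [h2, neg_neg]

lemma mem_span_face [Finite E] (x w : V) :
    w ∈ Submodule.span ℝ (face a x) ↔ ∀ i, a i x = 0 → a i w = 0 := by
  constructor
  · intro hw i hi
    have : Submodule.span ℝ (face a x) ≤ LinearMap.ker (a i) := by
      rw [Submodule.span_le]
      rintro z (hz | hz) <;> have := hz i <;> rw [hi] at this <;> simpa using this
    exact this hw
  · intro h
    obtain ⟨ε, hε, C⟩ := comp a x w
    have h1 : x + ε • w ∈ face a x := Or.inl fun i => by
      by_cases hi : a i x = 0
      · simp [hi, h i hi]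
      · exact sign_of_pos (C i hi)
    have : w = ε⁻¹ • ((x + ε • w) - x) := by
      rw [add_sub_cancel_left, smul_smul, inv_mul_cancel₀ hε.ne', one_smul]
    rw [this]
    exact Submodule.smul_mem _ _ (Submodule.sub_mem _ (Submodule.subset_span h1)
      (Submodule.subset_span (mem_face_self x)))

variable [FiniteDimensional ℝ V] [Fintype E] [DecidableEq E] {d : ℕ}

omit [DecidableEq E] in
lemma rk_top (hd : finrank ℝ V = d + 1) (h0 : ∀ i, a i ≠ 0) (x : V) :
    finrank ℝ (Submodule.span ℝ (face a x)) = d + 1 ↔ ∀ i, a i x ≠ 0 := by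
  constructor
  · intro h i hi
    have := Submodule.eq_top_of_finrank_eq (h.trans hd.symm)
    apply h0 i; ext w
    exact (mem_span_face x w).mp (this ▸ trivial) i hi
  · intro h
    have : Submodule.span ℝ (face a x) = ⊤ :=
      eq_top_iff.mpr fun w _ => (mem_span_face x w).mpr fun i hi => absurd hi (h i)
    rw [this, finrank_top, hd]

omit [DecidableEq E] in
lemma rk_one (hd : finrank ℝ V = d + 1) (h0 : ∀ i, a i ≠ 0) (hs : Smp a) (x : V) :
    finrank ℝ (Submodule.span ℝ (face a x)) = d ↔ ∃ e, a e x = 0 ∧ ∀ i, i ≠ e → a i x ≠ 0 := by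
  have hk : ∀ e, finrank ℝ (LinearMap.ker (a e)) = d := fun e => by
    have := Module.Dual.finrank_ker_add_one_of_ne_zero (h0 e); omega
  constructor
  · intro h
    obtain ⟨e, he⟩ : ∃ e, a e x = 0 := by
      by_contra hc; push Not at hc
      have := (rk_top hd h0 x).mpr hc; omega
    refine ⟨e, he, fun i hi hx => ?_⟩
    have h1 : Submodule.span ℝ (face a x) ≤ LinearMap.ker (a e) :=
      fun w hw => (mem_span_face x w).mp hw e he
    have h2 := Submodule.eq_of_le_of_finrank_eq h1 (h.trans (hk e).symm)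
    obtain ⟨w, w1, w2⟩ := hs e i hi.symm
    exact w2 ((mem_span_face x w).mp (h2 ▸ w1) i hx)
  · rintro ⟨e, he, h⟩
    have : Submodule.span ℝ (face a x) = LinearMap.ker (a e) := by
      ext w; rw [mem_span_face]
      refine ⟨fun H => H e he, fun H i hi => ?_⟩
      by_cases hie : i = e
      · rw [hie]; exact H
      · exact absurd hi (h i hie)
    rw [this, hk]

omit [FiniteDimensional ℝ V] [Fintype E] [DecidableEq E] in
lemma sv_iff {x y : V} {i : E} (hx : a i x ≠ 0) (hy : a i y ≠ 0) :
    (sign (a i y) = sign (a i x) ↔ tv a y i = tv a x i) ∧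
      (sign (a i y) = -sign (a i x) ↔ tv a y i = !tv a x i) := by
  unfold tv
  rcases lt_or_gt_of_ne hx with h1 | h1 <;> rcases lt_or_gt_of_ne hy with h2 | h2 <;>
    simp [h1, h2, h1.le, h2.le, sign_pos, sign_neg, not_lt.mpr]

omit [FiniteDimensional ℝ V] [Fintype E] [DecidableEq E] in
lemma face_eq_iff {x y : V} (hx : ∀ i, a i x ≠ 0) (hy : ∀ i, a i y ≠ 0) :
    face a y = face a x ↔ Pm (tv a x) (tv a y) := by
  constructor
  · intro h
    have : y ∈ face a x := h ▸ mem_face_self y
    rcases this with h | h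
    · exact Or.inl (funext fun i => (sv_iff (hx i) (hy i)).1.mp (h i))
    · exact Or.inr (funext fun i => (sv_iff (hx i) (hy i)).2.mp (h i))
  · rintro (h | h)
    · exact face_eq_of_mem (Or.inl fun i => (sv_iff (hx i) (hy i)).1.mpr (congrFun h i))
    · exact face_eq_of_mem (Or.inr fun i => (sv_iff (hx i) (hy i)).2.mpr (congrFun h i))

lemma adj_iff (hd : finrank ℝ V = d + 1) (h0 : ∀ i, a i ≠ 0) (hs : Smp a)
    (hE : 3 ≤ Fintype.card E) {x y : V} (hx : ∀ i, a i x ≠ 0) (hy : ∀ i, a i y ≠ 0) :
    (face a x ≠ face a y ∧ ∃ K ∈ faces a, finrank ℝ (Submodule.span ℝ K) = d ∧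
      K ⊆ closure (face a x) ∧ K ⊆ closure (face a y)) ↔ ∃ e, Pm (fl (tv a x) e) (tv a y) := by
  have le_iff : ∀ (p z : V) (e : E), a e p = 0 → (∀ i, i ≠ e → a i p ≠ 0) → (∀ i, a i z ≠ 0) →
      (Le (sv a p) (sv a z) ↔ (∀ i, i ≠ e → tv a p i = tv a z i) ∨
        (∀ i, i ≠ e → tv a p i = !tv a z i)) := by
    intro p z e h1 h2 h3
    have hh : ∀ i, sv a p i ≠ 0 ↔ i ≠ e := fun i =>
      ⟨fun h hi => h (by simp [sv, hi, h1]), fun h => by simpa [sv] using h2 i h⟩
    unfold Le
    simp only [hh]
    exact or_congr (forall₂_congr fun i hi => (sv_iff (h3 i) (h2 i hi)).1)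
      (forall₂_congr fun i hi => (sv_iff (h3 i) (h2 i hi)).2)
  constructor
  · rintro ⟨hne, _, ⟨p, -, rfl⟩, hr, h1, h2⟩
    obtain ⟨e, he, he'⟩ := (rk_one hd h0 hs p).mp hr
    rw [sub_cl_iff, le_iff p _ e he he' (by assumption)] at h1 h2
    have hne' : ¬ Pm (tv a x) (tv a y) := fun h => hne ((face_eq_iff hx hy).mpr h).symm
    refine ⟨e, ?_⟩
    have : (∀ i, i ≠ e → tv a y i = tv a x i) ∨ (∀ i, i ≠ e → tv a y i = !tv a x i) := by
      rcases h1 with h1 | h1 <;> rcases h2 with h2 | h2
      · exact Or.inl fun i hi => by rw [← h1 i hi, h2 i hi]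
      · exact Or.inr fun i hi => by rw [← h1 i hi, h2 i hi]; simp
      · exact Or.inr fun i hi => by rw [← h1 i hi, h2 i hi]
      · exact Or.inl fun i hi => by have := h1 i hi; rw [h2 i hi] at this; simpa using this
    rcases this with h | h
    · left; funext i
      by_cases hi : i = e
      · subst hi; rw [fl_self]
        by_contra hc
        refine hne' (Or.inl (funext fun j => ?_))
        by_cases hj : j = i
        · subst hj; simpa using hc
        · exact h j hj
      · rw [fl_ne _ hi, h i hi]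
    · right; funext i
      by_cases hi : i = e
      · subst hi; rw [ng_apply, fl_self]
        by_contra hc
        refine hne' (Or.inr (funext fun j => ?_))
        by_cases hj : j = i
        · subst hj; rw [ng_apply]; revert hc; cases tv a y j <;> cases tv a x j <;> simp
        · exact h j hj
      · rw [ng_apply, fl_ne _ hi, h i hi]
  · rintro ⟨e, he⟩
    have hT : IsT a (fl (tv a x) e) := by
      rcases he.symm with h | h <;> rw [h]
      · exact ⟨y, hy, rfl⟩
      · exact IsT.ng ⟨y, hy, rfl⟩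
    obtain ⟨p, hp, hp'⟩ := edge_pt ⟨x, hx, rfl⟩ hT
    obtain ⟨j, hj, -⟩ := out2 hE e e
    refine ⟨fun h => ?_, _, ⟨p, ?_, rfl⟩, (rk_one hd h0 hs p).mpr ⟨e, hp, fun i hi => (hp' i hi).1⟩,
      ?_, ?_⟩
    · have h1 := ((face_eq_iff hx hy).mp h.symm).trans he.symm
      have := congrFun (h1.eq_of j (fl_ne _ hj).symm) e
      simp at this
    · rintro rfl; exact (hp' j hj).1 (by simp)
    · rw [sub_cl_iff, le_iff p _ e hp (fun i hi => (hp' i hi).1) hx]
      exact Or.inl fun i hi => (hp' i hi).2
    · rw [sub_cl_iff, le_iff p _ e hp (fun i hi => (hp' i hi).1) hy]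
      rcases he with h | h
      · exact Or.inl fun i hi => by rw [h, fl_ne _ hi, (hp' i hi).2]
      · exact Or.inr fun i hi => by rw [h, ng_apply, fl_ne _ hi, (hp' i hi).2]; simp

end Pool.Agent.H.MP_d06cab_co
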