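import Pool.Agent.H.MP_d06cab_co.Bridge

namespace Pool.Agent.H.MP_d06cab_co
open SignType Module

variable {V : Type*} [NormedAddCommGroup V] [NormedSpace ℝ V] [FiniteDimensional ℝ V]
variable {E : Type*} [Fintype E] [DecidableEq E] {G : Type*} [Fintype G] [DecidableEq G]
variable {a : E → V →ₗ[ℝ] ℝ} {b : G → V →ₗ[ℝ] ℝ} {d : ℕ}

structure Good (a : E → V →ₗ[ℝ] ℝ) : Prop where
  ne0 : ∀ i, a i ≠ 0
  smp : Smp a
  nc : ∀ w, (∀ i, a i w = 0) → w = 0

omit [FiniteDimensional ℝ V] [Fintype E] [DecidableEq E] in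
lemma face_eq_sv (x y : V) : face a y = face a x ↔ (sv a y = sv a x ∨ sv a y = -sv a x) := by
  constructor
  · intro h
    have : y ∈ face a x := h ▸ mem_face_self y
    exact this.imp (fun h => funext h) (fun h => funext h)
  · intro h
    exact face_eq_of_mem (h.imp (fun h => congrFun h) (fun h => congrFun h))

omit [DecidableEq E] [DecidableEq G] in
lemma transfer (ha : Good a) (hb : Good b) (σ : E ≃ G) (ρ : E → Bool)
    (h : ∀ u, IsT a u ↔ IsT b fun g => xor (u (σ.symm g)) (ρ (σ.symm g))) :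
    ∃ β : faces a ≃ faces b, ∀ F F' : faces a,
      F.1 ⊆ closure F'.1 ↔ (β F).1 ⊆ closure (β F').1 := by
  let tr : (E → SignType) → G → SignType := fun X g =>
    if ρ (σ.symm g) then -X (σ.symm g) else X (σ.symm g)
  let T : (E → Bool) → G → Bool := fun u g => xor (u (σ.symm g)) (ρ (σ.symm g))
  have Tsur : ∀ w, ∃ u, T u = w := fun w =>
    ⟨fun e => xor (w (σ e)) (ρ e), funext fun g => by simp [T]⟩
  have trsur : ∀ Y, ∃ X, tr X = Y := fun Y =>
    ⟨fun e => if ρ e then -Y (σ e) else Y (σ e), funext fun g => by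
      cases h : ρ (σ.symm g) <;> simp [tr, h]⟩
  have hc : ∀ X u, cmp (tr X) (T u) = T (cmp X u) := by
    intro X u; funext g
    cases h1 : ρ (σ.symm g) <;> cases h2 : X (σ.symm g) <;> simp [cmp, tr, T, h1, h2]
  have cov : ∀ X, (∃ x, ∀ i, sign (a i x) = X i) ↔ ∃ y, ∀ g, sign (b g y) = tr X g := by
    intro X
    rw [mandel ha.ne0, mandel hb.ne0]
    constructor
    · intro H w hw
      obtain ⟨u, rfl⟩ := Tsur w
      rw [hc]; exact (h _).mp (H u ((h u).mpr hw))
    · intro H u hu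
      have := H _ ((h u).mp hu)
      refine (h _).mpr ?_
      have e := hc X u
      exact (congrArg (IsT b) e).mp this
  have tr_eq : ∀ X Y e, tr X (σ e) = tr Y (σ e) ↔ X e = Y e := by
    intro X Y e; cases h : ρ e <;> simp [tr, h]
  have tr_neg : ∀ X, tr (-X) = -tr X := by
    intro X; funext g; cases h : ρ (σ.symm g) <;> simp [tr, h]
  have tr_zero : tr 0 = 0 := by funext g; simp [tr]
  have tr_inj : ∀ X Y, tr X = tr Y ↔ X = Y := fun X Y =>
    ⟨fun h => funext fun e => (tr_eq X Y e).mp (congrFun h _), fun h => h ▸ rfl⟩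
  have tr_le : ∀ X Y, Le (tr X) (tr Y) ↔ Le X Y := by
    intro X Y
    unfold Le
    rw [← σ.forall_congr_right, ← σ.forall_congr_right (q := fun g => tr X g ≠ 0 → tr X g = -tr Y g)]
    have h1 : ∀ e, tr X (σ e) ≠ 0 ↔ X e ≠ 0 := fun e => by
      have := tr_eq X 0 e; rw [tr_zero] at this; exact this.not
    have h2 : ∀ e, tr X (σ e) = -tr Y (σ e) ↔ X e = -Y e := fun e => by
      have := tr_eq X (-Y) e; rw [tr_neg] at this; exact this
    simp only [h1, h2, tr_eq]
  have sv0a : ∀ x, sv a x = 0 ↔ x = 0 := fun x =>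
    ⟨fun h => ha.nc x fun i => sign_eq_zero_iff.mp (congrFun h i),
      fun h => by funext i; simp [sv, h]⟩
  have sv0b : ∀ x, sv b x = 0 ↔ x = 0 := fun x =>
    ⟨fun h => hb.nc x fun i => sign_eq_zero_iff.mp (congrFun h i),
      fun h => by funext i; simp [sv, h]⟩
  have ex : ∀ F : faces a, ∃ F' : faces b, ∃ x y, F.1 = face a x ∧ F'.1 = face b y ∧
      sv b y = tr (sv a x) := by
    rintro ⟨_, x, hx, rfl⟩
    obtain ⟨y, hy⟩ := (cov (sv a x)).mp ⟨x, fun _ => rfl⟩
    have hy' : sv b y = tr (sv a x) := funext hy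
    refine ⟨⟨_, y, fun h0 => hx ?_, rfl⟩, x, y, rfl, rfl, hy'⟩
    rw [← sv0a, ← tr_inj, tr_zero, ← hy', sv0b, h0]
  choose f x y h1 h2 h3 using ex
  have feq : ∀ x y x' y', sv b y = tr (sv a x) → sv b y' = tr (sv a x') →
      (face b y = face b y' ↔ face a x = face a x') := by
    intro x y x' y' e1 e2
    rw [face_eq_sv, face_eq_sv, e1, e2, ← tr_neg, tr_inj, tr_inj]
  have finj : Function.Injective f := by
    intro F F' h
    apply Subtype.ext
    rw [h1, h1, ← feq _ _ _ _ (h3 F) (h3 F'), ← h2, ← h2, h]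
  have fsur : Function.Surjective f := by
    rintro ⟨_, y', hy', rfl⟩
    obtain ⟨X, hX⟩ := trsur (sv b y')
    obtain ⟨x', hx'⟩ := (cov X).mpr ⟨y', fun g => by rw [hX]; rfl⟩
    have e : sv b y' = tr (sv a x') := by rw [← hX]; congr 1; exact (funext hx').symm
    have hx0 : x' ≠ 0 := by
      intro h0
      apply hy'
      rw [← sv0b, e, (sv0a x').mpr h0, tr_zero]
    refine ⟨⟨_, x', hx0, rfl⟩, Subtype.ext ?_⟩
    rw [h2, feq _ _ _ _ (h3 _) e, ← h1]
  refine ⟨Equiv.ofBijective f ⟨finj, fsur⟩, fun F F' => ?_⟩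
  simp only [Equiv.ofBijective_apply]
  rw [h1 F, h1 F', h2 F, h2 F', sub_cl_iff, sub_cl_iff, h3, h3, tr_le]

omit [DecidableEq E] in
lemma card_ge (ha : Good a) : finrank ℝ V ≤ Fintype.card E := by
  have : Function.Injective (LinearMap.pi a) := by
    rw [← LinearMap.ker_eq_bot, LinearMap.ker_eq_bot']
    exact fun w hw => ha.nc w fun i => congrFun hw i
  simpa using LinearMap.finrank_le_finrank_of_injective this

omit [DecidableEq E] in
lemma all_T (ha : Good a) (h : finrank ℝ V = Fintype.card E) (u : E → Bool) : IsT a u := by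
  have h1 : Function.Injective (LinearMap.pi a) := by
    rw [← LinearMap.ker_eq_bot, LinearMap.ker_eq_bot']
    exact fun w hw => ha.nc w fun i => congrFun hw i
  have h2 := (LinearMap.injective_iff_surjective_of_finrank_eq_finrank (by simpa using h)).mp h1
  obtain ⟨x, hx⟩ := h2 fun i => if u i then 1 else -1
  have hx' : ∀ i, a i x = if u i then 1 else -1 := fun i => congrFun hx i
  refine ⟨x, fun i => ?_, funext fun i => ?_⟩
  · rw [hx']; cases u i <;> simp
  · unfold tv; rw [hx']; cases u i <;> simp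

lemma cells (ha : Good a) (hd : finrank ℝ V = d + 1) (hE : 3 ≤ Fintype.card E) :
    ∃ cl : ∀ u, IsT a u →
        {F : Set V // F ∈ faces a ∧ finrank ℝ (Submodule.span ℝ F) = d + 1},
      (∀ u hu v hv, cl v hv = cl u hu ↔ Pm u v) ∧
      (∀ u hu v hv, (cellGraph a d).Adj (cl u hu) (cl v hv) ↔ ∃ e, Pm (fl u e) v) ∧
      ∀ c, ∃ u hu, cl u hu = c := by
  obtain ⟨e1⟩ : Nonempty E := Fintype.card_pos_iff.mp (by omega)
  refine ⟨fun u hu => ⟨face a hu.choose, ⟨_, fun h => hu.choose_spec.1 e1 (by simp [h]), rfl⟩,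
    (rk_top hd ha.ne0 _).mpr hu.choose_spec.1⟩, fun u hu v hv => ?_, fun u hu v hv => ?_, ?_⟩
  · rw [Subtype.ext_iff, face_eq_iff hu.choose_spec.1 hv.choose_spec.1, hu.choose_spec.2,
      hv.choose_spec.2]
  · have := adj_iff hd ha.ne0 ha.smp hE hu.choose_spec.1 hv.choose_spec.1
    rw [hu.choose_spec.2, hv.choose_spec.2] at this
    rw [← this]
    simp only [cellGraph, ne_eq, Subtype.ext_iff]
  · rintro ⟨_, ⟨x, hx0, rfl⟩, hx⟩
    have hx' := (rk_top hd ha.ne0 x).mp hx
    have hT : IsT a (tv a x) := ⟨x, hx', rfl⟩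
    refine ⟨_, hT, Subtype.ext ?_⟩
    exact (face_eq_iff hx' hT.choose_spec.1).mpr (Or.inl hT.choose_spec.2)

lemma core (ha : Good a) (hb : Good b) (hd : finrank ℝ V = d + 1) (h3 : 3 ≤ d)
    (hle : Fintype.card E ≤ Fintype.card G) (φ : cellGraph a d ≃g cellGraph b d) :
    ∃ β : faces a ≃ faces b, ∀ F F' : faces a,
      F.1 ⊆ closure F'.1 ↔ (β F).1 ⊆ closure (β F').1 := by
  classical
  have cE := card_ge ha
  have cG := card_ge hb
  by_cases h5 : 5 ≤ Fintype.card G
  swap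
  · exact transfer ha hb (Fintype.equivOfCardEq (by omega)) (fun _ => true) fun u =>
      ⟨fun _ => all_T hb (by omega) _, fun _ => all_T ha (by omega) _⟩
  obtain ⟨ca, a1, a2, a3⟩ := cells ha hd (by omega)
  obtain ⟨cb, b1, b2, b3⟩ := cells hb hd (by omega)
  choose rep hrep hrep' using b3
  let R : (E → Bool) → G → Bool := fun u => if h : IsT a u then rep (φ (ca u h)) else fun _ => true
  have hRT : ∀ u, IsT a u → IsT b (R u) := fun u hu => by simp only [R, dif_pos hu]; exact hrep _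
  have hR : ∀ u hu, cb (R u) (hRT u hu) = φ (ca u hu) := fun u hu => by
    simp only [R, dif_pos hu]; exact hrep' _
  have H : Hyp a R := by
    refine ⟨ha.smp, ha.ne0, by omega, by omega, fun u e hu hu' => ?_, fun u hu => ?_,
      fun u v hu hv h => ?_⟩
    · rw [← b2 _ (hRT u hu) _ (hRT _ hu'), hR _ hu, hR _ hu', φ.map_adj_iff, a2]
      exact ⟨e, Pm.refl _⟩
    · rw [← b1 _ (hRT u hu) _ (hRT _ hu.ng), hR _ hu, hR _ hu.ng, (a1 u hu _ hu.ng).mpr (Or.inr rfl)]
    · rw [← b1 _ (hRT u hu) _ (hRT _ hv), hR _ hu, hR _ hv] at h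
      exact (a1 u hu v hv).mp (φ.injective h)
  obtain ⟨Φ, hΦ⟩ := exists_lift H (by omega) ha.nc hle h5
  obtain ⟨σ, ρ, h⟩ := bez H hb.smp hb.ne0 hRT (fun u g hu hg => by
    obtain ⟨v, hv, hc⟩ := a3 (φ.symm (cb _ hg))
    have h1 : φ (ca v hv) = cb _ hg := by rw [hc]; simp
    have h2 := (b2 _ (hRT u hu) _ hg).mpr ⟨g, Pm.refl _⟩
    rw [hR _ hu, ← h1, φ.map_adj_iff, a2] at h2
    obtain ⟨e, he⟩ := h2
    have hT : IsT a (fl u e) := by
      rcases he.symm with h | h <;> rw [h]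
      · exact hv
      · exact hv.ng
    refine ⟨e, hT, ?_⟩
    rw [← b1 _ hg _ (hRT _ hT), hR _ hT, ← h1, (a1 _ hT v hv).mpr he]) hΦ
  exact transfer ha hb σ ρ h

theorem main (ha : Good a) (hb : Good b) (hd : finrank ℝ V = d + 1) (h3 : 3 ≤ d)
    (φ : cellGraph a d ≃g cellGraph b d) :
    ∃ β : faces a ≃ faces b, ∀ F F' : faces a,
      F.1 ⊆ closure F'.1 ↔ (β F).1 ⊆ closure (β F').1 := by
  rcases le_total (Fintype.card E) (Fintype.card G) with h | h
  · exact core ha hb hd h3 h φ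
  · obtain ⟨β, hβ⟩ := core hb ha hd h3 h φ.symm
    exact ⟨β.symm, fun F F' => by rw [hβ]; simp⟩

omit [FiniteDimensional ℝ V] [Fintype E] [DecidableEq E] in
lemma good_of (h0 : ∀ i, a i ≠ 0) (hi : Function.Injective fun i => LinearMap.ker (a i))
    (hn : ∀ w, (∀ i, a i w = 0) → w = 0) : Good a := by
  refine ⟨h0, fun i j hij => ?_, hn⟩
  by_contra h
  push Not at h
  obtain ⟨α, β, e⟩ := coeffs (a i) (a i) (a j) fun w hw _ => h w hw
  have hne : α + β ≠ 0 := by
    intro h1; apply h0 j; ext w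
    rw [e]; simp only [LinearMap.zero_apply]; linear_combination (a i w) * h1
  apply hij; apply hi; ext w
  simp only [LinearMap.mem_ker]
  refine ⟨h w, fun hw => ?_⟩
  rw [e] at hw
  exact (mul_eq_zero.mp (by linear_combination hw : (α + β) * a i w = 0)).resolve_left hne

end Pool.Agent.H.MP_d06cab_co
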