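import Mathlib

namespace Pool.Agent.H.MP_d06cab_co
open Filter Topology

variable {V : Type*} [AddCommGroup V] [Module ℝ V]

lemma comp {ι : Type*} [Finite ι] (b : ι → V →ₗ[ℝ] ℝ) (p y : V) :
    ∃ ε : ℝ, 0 < ε ∧ ∀ i, b i p ≠ 0 → 0 < b i (p + ε • y) * b i p := by
  have h : ∀ i, ∀ᶠ ε in 𝓝[>] (0:ℝ), b i p ≠ 0 → 0 < b i (p + ε • y) * b i p := by
    intro i
    by_cases hp : b i p = 0
    · exact Eventually.of_forall fun _ h => absurd hp h
    have hc : Continuous fun ε : ℝ => (b i p + ε * b i y) * b i p := by fun_prop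
    have h0 : (0:ℝ) < (b i p + 0 * b i y) * b i p := by
      have := mul_self_pos.mpr hp
      simpa using this
    have := (hc.tendsto 0).eventually (lt_mem_nhds h0)
    refine (this.filter_mono nhdsWithin_le_nhds).mono fun ε hε _ => ?_
    simpa using hε
  obtain ⟨ε, h1, h2⟩ := ((eventually_all.mpr h).and self_mem_nhdsWithin).exists
  exact ⟨ε, h2, h1⟩

lemma generic {κ : Type*} [Finite κ] (W : Submodule ℝ V) (g : κ → V →ₗ[ℝ] ℝ) :
    ∃ v ∈ W, ∀ k, (∃ w ∈ W, g k w ≠ 0) → g k v ≠ 0 := by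
  obtain ⟨x, hx⟩ := Module.Dual.exists_forall_ne_zero_of_forall_exists
    (ι := {k // ∃ w ∈ W, g k w ≠ 0}) (K := ℝ) (M := W) (fun k => (g k.1).comp W.subtype)
    (fun k => by obtain ⟨w, hw, h⟩ := k.2; exact ⟨⟨w, hw⟩, h⟩)
  exact ⟨x.1, x.2, fun k hk => hx ⟨k, hk⟩⟩

lemma geo {ι : Type*} [Finite ι] (W : Submodule ℝ V) (b : ι → V →ₗ[ℝ] ℝ) (x y : V)
    (hx : x ∈ W) (hy : y ∈ W) (hS : ∃ i, b i x * b i y < 0) :
    ∃ p ∈ W, ∃ i0, b i0 x * b i0 y < 0 ∧ b i0 p = 0 ∧ ∀ i, b i x ≠ 0 → b i y ≠ 0 →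
      ((b i p = 0 ∧ b i x * b i y < 0 ∧ ∃ c : ℝ, ∀ w ∈ W, b i w = c * b i0 w) ∨
        0 < b i p * b i x) := by
  classical
  let g : ι × ι → V →ₗ[ℝ] ℝ := fun ij => b ij.2 y • b ij.1 - b ij.1 y • b ij.2
  obtain ⟨v, hv, hg⟩ := generic W g
  obtain ⟨ε, hε, hc⟩ := comp (Sum.elim b g) x v
  set z := x + ε • v with hz
  have hzW : z ∈ W := W.add_mem hx (W.smul_mem _ hv)
  have h1 : ∀ i, b i x ≠ 0 → 0 < b i z * b i x := fun i hi => hc (Sum.inl i) hi
  have h2 : ∀ k, (∃ w ∈ W, g k w ≠ 0) → g k z ≠ 0 := by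
    intro k hk h0
    by_cases h : g k x = 0
    · have : g k z = ε * g k v := by simp [hz, h]
      rw [h0] at this
      exact (mul_ne_zero hε.ne' (hg k hk)) this.symm
    · have := hc (Sum.inr k) h
      simp only [Sum.elim_inr] at this
      rw [h0] at this; simp at this
  have := Fintype.ofFinite ι
  let S := Finset.univ.filter fun i => b i x * b i y < 0
  have hSne : S.Nonempty := by obtain ⟨i, hi⟩ := hS; exact ⟨i, by simp [S, hi]⟩
  obtain ⟨i0, hi0, hmin⟩ := S.exists_min_image (fun i => - b i z / b i y) hSne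
  have hi0' : b i0 x * b i0 y < 0 := by simpa [S] using hi0
  have hy0 : b i0 y ≠ 0 := by rintro h; simp [h] at hi0'
  have hx0 : b i0 x ≠ 0 := by rintro h; simp [h] at hi0'
  set t := - b i0 z / b i0 y with ht
  have key : ∀ i, b i x * b i y < 0 → b i z * b i y < 0 := by
    intro i hi
    have hxi : b i x ≠ 0 := by rintro h; simp [h] at hi
    have := h1 i hxi
    by_contra hcon
    push Not at hcon
    have h3 : 0 ≤ (b i z * b i y) * (b i z * b i x) := mul_nonneg hcon this.le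
    have h4 : b i z ≠ 0 := by rintro h; simp [h] at this
    have h5 := mul_self_pos.mpr h4
    nlinarith [mul_pos h5 (neg_pos.mpr hi)]
  have htpos : 0 < t := by
    have := key i0 hi0'
    have e : t = - (b i0 z * b i0 y) / (b i0 y * b i0 y) := by rw [ht]; field_simp
    rw [e]; exact div_pos (by linarith) (mul_self_pos.mpr hy0)
  refine ⟨z + t • y, W.add_mem hzW (W.smul_mem _ hy), i0, hi0', ?_, ?_⟩
  · simp only [map_add, map_smul, smul_eq_mul, ht]; field_simp; ring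
  intro i hxi hyi
  have hb : b i (z + t • y) = b i z + t * b i y := by simp
  rcases lt_or_gt_of_ne (mul_ne_zero hxi hyi) with hlt | hgt
  · have hle := hmin i (by simp [S, hlt])
    have hbi : b i z + t * b i y = - ((- b i z / b i y - t) * b i y) := by field_simp; ring
    rcases hle.eq_or_lt with heq | hl
    · left
      refine ⟨by rw [hb, hbi, ← heq]; simp, hlt, b i y / b i0 y, ?_⟩
      have hg0 : g (i, i0) z = 0 := by
        simp only [g, LinearMap.sub_apply, LinearMap.smul_apply, smul_eq_mul]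
        rw [ht] at heq
        field_simp at heq
        linarith
      intro w hw
      by_contra hne
      apply h2 (i, i0) ⟨w, hw, ?_⟩ hg0
      simp only [g, LinearMap.sub_apply, LinearMap.smul_apply, smul_eq_mul]
      intro h; apply hne; field_simp; linarith
    · right
      rw [hb, hbi]
      nlinarith [mul_pos (sub_pos.mpr hl) (neg_pos.mpr hlt)]
  · right
    rw [hb]
    nlinarith [h1 i hxi, mul_pos htpos hgt]

lemma coeffs (f g h : V →ₗ[ℝ] ℝ) (H : ∀ w, f w = 0 → g w = 0 → h w = 0) :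
    ∃ α β : ℝ, ∀ w, h w = α * f w + β * g w := by
  have : h ∈ Submodule.span ℝ (Set.range ![f, g]) := by
    apply mem_span_of_iInf_ker_le_ker
    intro w hw
    simp only [Submodule.mem_iInf, LinearMap.mem_ker] at hw ⊢
    exact H w (hw 0) (hw 1)
  obtain ⟨c, hc⟩ := (Submodule.mem_span_range_iff_exists_fun ℝ).mp this
  refine ⟨c 0, c 1, fun w => ?_⟩
  rw [← hc]; simp [Fin.sum_univ_two]

lemma exch (f g h k : V →ₗ[ℝ] ℝ) (Hh : ∀ w, f w = 0 → g w = 0 → h w = 0)
    (Hk : ∀ w, f w = 0 → g w = 0 → k w = 0) (h1 : ∃ w, h w = 0 ∧ k w ≠ 0)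
    (h2 : ∃ w, k w = 0 ∧ h w ≠ 0) (w : V) (hw : h w = 0) (kw : k w = 0) :
    f w = 0 ∧ g w = 0 := by
  obtain ⟨α, β, e1⟩ := coeffs f g h Hh
  obtain ⟨γ, δ, e2⟩ := coeffs f g k Hk
  have hd : α * δ - β * γ ≠ 0 := by
    intro hd
    obtain ⟨u, hu, ku⟩ := h1
    obtain ⟨v, kv, hv⟩ := h2
    have a1 : β * k u = δ * h u := by rw [e1, e2]; linear_combination (-(f u)) * hd
    have a2 : α * k u = γ * h u := by rw [e1, e2]; linear_combination (g u) * hd
    rw [hu, mul_zero] at a1 a2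
    have hb : β = 0 := (mul_eq_zero.mp a1).resolve_right ku
    have ha : α = 0 := (mul_eq_zero.mp a2).resolve_right ku
    apply hv; rw [e1, ha, hb]; simp
  rw [e1] at hw; rw [e2] at kw
  constructor
  · have : (α * δ - β * γ) * f w = 0 := by linear_combination δ * hw - β * kw
    exact (mul_eq_zero.mp this).resolve_left hd
  · have : (α * δ - β * γ) * g w = 0 := by linear_combination α * kw - γ * hw
    exact (mul_eq_zero.mp this).resolve_left hd

lemma three [FiniteDimensional ℝ V] (hV : 4 ≤ Module.finrank ℝ V) (f g h : V →ₗ[ℝ] ℝ) :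
    ∃ w : V, w ≠ 0 ∧ f w = 0 ∧ g w = 0 ∧ h w = 0 := by
  let L : V →ₗ[ℝ] (Fin 3 → ℝ) := LinearMap.pi ![f, g, h]
  have : LinearMap.ker L ≠ ⊥ := LinearMap.ker_ne_bot_of_finrank_lt (by simp; omega)
  obtain ⟨w, hw, h0⟩ := (Submodule.ne_bot_iff _).mp this
  rw [LinearMap.mem_ker] at hw
  exact ⟨w, h0, congrFun hw 0, congrFun hw 1, congrFun hw 2⟩

end Pool.Agent.H.MP_d06cab_co
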