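import Pool.Agent.H.MP_d06cab_co.Tope

namespace Pool.Agent.H.MP_d06cab_co

variable {V : Type*} [AddCommGroup V] [Module ℝ V]
variable {E : Type*} [DecidableEq E] [Fintype E] {a : E → V →ₗ[ℝ] ℝ}
variable {G : Type*} [DecidableEq G] [Fintype G]

structure Hyp (a : E → V →ₗ[ℝ] ℝ) (R : (E → Bool) → G → Bool) : Prop where
  smp : Smp a
  ne0 : ∀ i, a i ≠ 0
  cE : 3 ≤ Fintype.card E
  cG : 3 ≤ Fintype.card G
  adj : ∀ u e, IsT a u → IsT a (fl u e) → ∃ g, Pm (fl (R u) g) (R (fl u e))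
  neg : ∀ u, IsT a u → Pm (R u) (R (ng u))
  inj : ∀ u v, IsT a u → IsT a v → Pm (R u) (R v) → Pm u v

def Lift (R : (E → Bool) → G → Bool) (S : (E → Bool) → Prop) (Φ : (E → Bool) → G → Bool) : Prop :=
  (∀ u, S u → Pm (R u) (Φ u)) ∧ ∀ u e, S u → S (fl u e) → ∃ g, Φ (fl u e) = fl (Φ u) g

variable {R : (E → Bool) → G → Bool}

omit [Fintype E] [Fintype G] in
lemma Lift.mono {S S' : (E → Bool) → Prop} {Φ} (h : Lift R S Φ) (hs : ∀ u, S' u → S u) :
    Lift R S' Φ := ⟨fun u hu => h.1 u (hs u hu), fun u e h1 h2 => h.2 u e (hs _ h1) (hs _ h2)⟩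

omit [Fintype E] [Fintype G] in
lemma Lift.ng {S : (E → Bool) → Prop} {Φ} (h : Lift R S Φ) : Lift R S fun u => ng (Φ u) :=
  ⟨fun u hu => (h.1 u hu).ng_right, fun u e h1 h2 => by
    obtain ⟨g, hg⟩ := h.2 u e h1 h2
    exact ⟨g, by simp only [hg, fl_ng]⟩⟩

lemma Lift.uniq (H : Hyp a R) {J s Φ Ψ} (h : Lift R (A a J s) Φ) (h' : Lift R (A a J s) Ψ)
    {v} (hv : A a J s v) (e : Φ v = Ψ v) : ∀ u, A a J s u → Φ u = Ψ u := by
  refine conn H.smp hv (fun u => Φ u = Ψ u) e fun w f h1 h2 hw => ?_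
  obtain ⟨g, hg⟩ := h.2 w f h1 h2
  obtain ⟨g', hg'⟩ := h'.2 w f h1 h2
  have := (h.1 _ h2).symm.trans (h'.1 _ h2)
  rw [hg, hg', ← hw] at this
  show Φ (fl w f) = Ψ (fl w f)
  rw [hg, hg', ← hw, pm_fl_eq H.cG this]

lemma adj_pm (H : Hyp a R) {u e} (h1 : IsT a u) (h2 : IsT a (fl u e)) {w w'} (hw : Pm (R u) w)
    (hw' : Pm (R (fl u e)) w') : ∃ g, Pm (fl w g) w' := by
  obtain ⟨g, hg⟩ := H.adj u e h1 h2
  exact ⟨g, ((hw.fl g).symm.trans hg).trans hw'⟩

lemma lt1 (H : Hyp a R) (J : Set E) (s : E → Bool) (Z : Finset E) (hZ : ∀ i, i ∉ J → i ∈ Z)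
    (hc : 2 * Z.card < Fintype.card G) : ∃ Φ, Lift R (A a J s) Φ := by
  classical
  by_cases hne : ∃ v, A a J s v
  swap
  · exact ⟨R, fun u hu => absurd ⟨u, hu⟩ hne, fun u e hu => absurd ⟨u, hu⟩ hne⟩
  obtain ⟨v, hv⟩ := hne
  have key : ∀ u, A a J s u → ∃ w, Pm (R u) w ∧ hammingDist w (R v) ≤ hammingDist u v := by
    refine conn' H.smp hv _ ⟨R v, Pm.refl _, by simp⟩ ?_
    rintro w e h1 h2 hne ⟨z, hz, hd⟩
    obtain ⟨g, hg⟩ := adj_pm H h2.1 (e := e) (by rw [fl_fl]; exact h1.1) hz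
      (w' := R w) (by rw [fl_fl]; exact Pm.refl _)
    refine ⟨fl z g, hg.symm, ?_⟩
    have := hd_fl_le z (R v) g
    have := hd_fl_ne hne
    omega
  have hb : ∀ u, A a J s u → hammingDist u v ≤ Z.card := by
    intro u hu
    unfold hammingDist
    apply Finset.card_le_card
    intro i hi
    simp only [Finset.mem_filter, Finset.mem_univ, true_and] at hi
    apply hZ; intro hJ; exact hi (by rw [hu.2 i hJ, hv.2 i hJ])
  choose! Φ hΦ using key
  refine ⟨Φ, fun u hu => (hΦ u hu).1, fun u e h1 h2 => ?_⟩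
  obtain ⟨g, hg⟩ := adj_pm H h1.1 h2.1 (hΦ u h1).1 (hΦ _ h2).1
  refine ⟨g, hg.resolve_right fun hg => ?_⟩
  have e1 := hd_ng (fl (Φ u) g)
  rw [← hg] at e1
  have e2 := hammingDist_triangle_right (fl (Φ u) g) (Φ (fl u e)) (R v)
  have e3 := hd_fl_le (Φ u) (R v) g
  have e4 := (hΦ u h1).2
  have e5 := (hΦ _ h2).2
  have e6 := hb u h1
  have e7 := hb _ h2
  by_cases h : u e = v e
  · have := hd_fl_eq h; omega
  · have := hd_fl_ne h; omega

lemma lt2 (H : Hyp a R) (h5 : 5 ≤ Fintype.card G) (J : Set E) (s : E → Bool) (f : E) (hf : f ∈ J)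
    (hfl : ∀ u, A a J s u → IsT a (fl u f)) : ∃ Φ, Lift R (A a J s) Φ := by
  classical
  by_cases hne : ∃ v, A a J s v
  swap
  · exact ⟨R, fun u hu => absurd ⟨u, hu⟩ hne, fun u e hu => absurd ⟨u, hu⟩ hne⟩
  obtain ⟨v, hv⟩ := hne
  obtain ⟨g0, hg0⟩ := H.adj v f hv.1 (hfl v hv)
  have hef : ∀ u e, A a J s u → A a J s (fl u e) → e ≠ f := by
    rintro u e h1 h2 rfl
    have := h2.2 e hf
    rw [fl_self, h1.2 e hf] at this; simp at this
  have l1 : ∀ u e b, A a J s u → A a J s (fl u e) → Pm (fl (R u) g0) (R (fl u f)) →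
      Pm (fl (R u) b) (R (fl u e)) → b ≠ g0 := by
    rintro u e b h1 h2 h3 h4 rfl
    have := H.inj _ _ h2.1 (hfl u h1) (h4.symm.trans h3)
    exact hef u e h1 h2 (fl_inj (pm_fl_eq H.cE this)).symm
  have key : ∀ u, A a J s u → Pm (fl (R u) g0) (R (fl u f)) := by
    refine conn H.smp hv _ hg0 fun u e h1 h2 hu => ?_
    obtain ⟨x, hx⟩ := H.adj u e h1.1 h2.1
    obtain ⟨b, hb⟩ := H.adj (fl u e) f h2.1 (hfl _ h2)
    obtain ⟨c, hc⟩ := H.adj (fl u f) e (hfl _ h1) (by rw [fl_comm]; exact hfl _ h2)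
    have n1 : x ≠ g0 := l1 u e x h1 h2 hu hx
    have n2 : x ≠ b := by
      rintro rfl
      have h3 := (hx.fl x).trans hb
      rw [fl_fl] at h3
      have h4 := H.inj _ _ h1.1 (hfl _ h2) h3
      have h6 := h4.fl f
      rw [fl_fl] at h6
      exact hef u e h1 h2 (fl_inj (pm_fl_eq H.cE h6))
    have h3 : Pm (fl (fl (R u) x) b) (fl (fl (R u) g0) c) := by
      rw [fl_comm u f e] at hc
      exact (((hx.fl b).trans hb).trans hc.symm).trans (hu.fl c).symm
    obtain ⟨i, i1, i2, i3, i4⟩ := out4 h5 x b g0 c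
    have h4 := h3.eq_of i (by rw [fl_ne _ i2, fl_ne _ i1, fl_ne _ i4, fl_ne _ i3])
    have h6 : c = x := by
      by_contra hcx
      have := congrFun h4 x
      rw [fl_ne _ (Ne.symm hcx), fl_ne _ n1, fl_ne _ n2, fl_self] at this
      simp at this
    subst h6
    rw [fl_comm] at h4
    have h7 := fl_inj h4
    rw [h7]; exact hb
  have nz : ∀ w : G → Bool, Pm w (if w g0 then w else ng w) ∧
      (if w g0 then w else ng w) g0 = true := by
    intro w
    cases h : w g0 <;> simp [Pm, h]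
  refine ⟨fun u => if R u g0 then R u else ng (R u), fun u _ => (nz _).1, fun u e h1 h2 => ?_⟩
  obtain ⟨x, hx⟩ := H.adj u e h1.1 h2.1
  have n1 : x ≠ g0 := l1 u e x h1 h2 (key u h1) hx
  refine ⟨x, Pm.eq_of ((((nz (R u)).1.fl x).symm.trans hx).trans (nz _).1) g0 ?_⟩
  rw [fl_ne _ n1.symm]
  exact (nz _).2.trans (nz _).2.symm

def Rk2 (a : E → V →ₗ[ℝ] ℝ) (p : V) : Prop :=
  ∃ e i, e ≠ i ∧ a e p = 0 ∧ a i p = 0 ∧ ∀ j, a j p = 0 → ∀ w, a e w = 0 → a i w = 0 → a j w = 0

def LTp (a : E → V →ₗ[ℝ] ℝ) (R : (E → Bool) → G → Bool) (p : V) : Prop :=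
  ∃ Φ, Lift R (A a {i | a i p ≠ 0} (tv a p)) Φ

def Half (a : E → V →ₗ[ℝ] ℝ) (J : Set E) (s : E → Bool) (e : E) (c : Bool) (u : E → Bool) : Prop :=
  A a J s u ∧ u e = c

omit [Fintype E] in
lemma half_iff {J : Set E} {s : E → Bool} {e : E} (he : e ∉ J) (c : Bool) (u : E → Bool) :
    Half a J s e c u ↔ A a (insert e J) (Function.update s e c) u := by
  constructor
  · rintro ⟨⟨h1, h2⟩, h3⟩
    refine ⟨h1, fun i hi => ?_⟩
    rcases hi with rfl | hi
    · simp [h3]
    · rw [Function.update_of_ne (by rintro rfl; exact he hi)]; exact h2 i hi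
  · rintro ⟨h1, h2⟩
    refine ⟨⟨h1, fun i hi => ?_⟩, by simpa using h2 e (Or.inl rfl)⟩
    rw [h2 i (Or.inr hi), Function.update_of_ne (by rintro rfl; exact he hi)]

lemma edge_step (H : Hyp a R) {J : Set E} {s : E → Bool} {e : E} {Φp Φm}
    (hp : Lift R (Half a J s e true) Φp) (hm : Lift R (Half a J s e false) Φm)
    {K : Set E} {t : E → Bool} (heK : e ∉ K) (hK : ∀ u, A a K t u → A a J s u)
    (hL : ∃ Ψ, Lift R (A a K t) Ψ) {u v : E → Bool} (hu : A a K t u) (hu' : A a K t (fl u e))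
    (hv : A a K t v) (hv' : A a K t (fl v e)) (ue : u e = true) (ve : v e = true)
    (hg : ∃ g, Φm (fl u e) = fl (Φp u) g) : ∃ g, Φm (fl v e) = fl (Φp v) g := by
  obtain ⟨Ψ, hΨ, h0⟩ : ∃ Ψ, Lift R (A a K t) Ψ ∧ Ψ u = Φp u := by
    obtain ⟨Ψ, hΨ⟩ := hL
    rcases (hΨ.1 u hu).symm.trans (hp.1 u ⟨hK u hu, ue⟩) with h | h
    · exact ⟨Ψ, hΨ, h.symm⟩
    · exact ⟨_, hΨ.ng, h.symm⟩
  obtain ⟨g, hg⟩ := hg
  obtain ⟨g', hg'⟩ := hΨ.2 u e hu hu'
  have h1 : Ψ (fl u e) = Φm (fl u e) := by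
    have := (hΨ.1 _ hu').symm.trans (hm.1 _ ⟨hK _ hu', by simp [ue]⟩)
    rw [hg, hg', h0] at this
    rw [hg, hg', h0, pm_fl_eq H.cG this]
  have U : ∀ c Φ, Lift R (Half a J s e c) Φ → ∀ x y, A a K t x → x e = c → A a K t y → y e = c →
      Ψ x = Φ x → Ψ y = Φ y := by
    intro c Φ hΦ x y hx xe hy ye h
    exact Lift.uniq H (J := insert e K) (s := Function.update t e c)
      (hΨ.mono fun w hw => ((half_iff heK c w).mpr hw).1)
      (hΦ.mono fun w hw => ⟨hK _ ((half_iff heK c w).mpr hw).1, ((half_iff heK c w).mpr hw).2⟩)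
      ((half_iff heK c x).mp ⟨hx, xe⟩) h y ((half_iff heK c y).mp ⟨hy, ye⟩)
  have h2 := U true Φp hp u v hu ue hv ve h0
  have h3 := U false Φm hm _ _ hu' (by simp [ue]) hv' (by simp [ve]) h1
  rw [← h2, ← h3]
  exact hΨ.2 v e hv hv'

lemma edge_pts (H : Hyp a R) {J : Set E} {s : E → Bool} {e : E} (he : e ∉ J) {Φp Φm}
    (hp : Lift R (Half a J s e true) Φp) (hm : Lift R (Half a J s e false) Φm)
    (hL : ∀ p, Rk2 a p → (∀ i ∈ J, a i p ≠ 0 ∧ tv a p i = s i) → LTp a R p)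
    (y : V) (hy : a e y = 0) (hy' : ∀ i, i ≠ e → a i y ≠ 0) (hyJ : ∀ i ∈ J, tv a y i = s i) :
    ∀ n (x : V), hammingDist (Function.update (tv a x) e true)
        (Function.update (tv a y) e true) ≤ n → a e x = 0 → (∀ i, i ≠ e → a i x ≠ 0) →
      (∀ i ∈ J, tv a x i = s i) →
      (∃ g, Φm (fl (Function.update (tv a x) e true) e) =
        fl (Φp (Function.update (tv a x) e true)) g) →
      ∃ g, Φm (fl (Function.update (tv a y) e true) e) =
        fl (Φp (Function.update (tv a y) e true)) g := by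
  have flu : ∀ x : V, fl (Function.update (tv a x) e true) e =
      Function.update (tv a x) e false := by
    intro x; funext j
    by_cases hj : j = e
    · subst hj; simp
    · rw [fl_ne _ hj, Function.update_of_ne hj, Function.update_of_ne hj]
  intro n
  induction n with
  | zero =>
    intro x h _ _ _ hg
    rw [hammingDist_eq_zero.mp (Nat.le_zero.mp h)] at hg; exact hg
  | succ n ih =>
    intro x h hx hx' hxJ hg
    by_cases heq : Function.update (tv a x) e true = Function.update (tv a y) e true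
    · rw [heq] at hg; exact hg
    obtain ⟨i, hi⟩ := Function.ne_iff.mp heq
    have hie : i ≠ e := by rintro rfl; simp at hi
    rw [Function.update_of_ne hie, Function.update_of_ne hie] at hi
    obtain ⟨p, hpW, i0, hi0, hp0, P⟩ := geo (LinearMap.ker (a e)) a x y hx hy
      ⟨i, neg_of_tv (hx' i hie) (hy' i hie) hi⟩
    have hpe : a e p = 0 := hpW
    have hi0e : i0 ≠ e := by rintro rfl; rw [hx] at hi0; simp at hi0
    have P1 : ∀ j, a j p ≠ 0 → j ≠ e ∧ tv a p j = tv a x j := by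
      intro j hj
      have hje : j ≠ e := by rintro rfl; exact hj hpe
      rcases P j (hx' j hje) (hy' j hje) with h | h
      · exact absurd h.1 hj
      · exact ⟨hje, tv_pos h⟩
    have P2 : ∀ j, j ≠ e → a j p = 0 → a j x * a j y < 0 ∧
        ∃ c : ℝ, ∀ w ∈ LinearMap.ker (a e), a j w = c * a i0 w := by
      intro j hje hj
      rcases P j (hx' j hje) (hy' j hje) with h | h
      · exact h.2
      · rw [hj] at h; simp at h
    have hR : Rk2 a p := by
      refine ⟨e, i0, hi0e.symm, hpe, hp0, fun j hj w h1 h2 => ?_⟩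
      by_cases hje : j = e
      · rw [hje]; exact h1
      · obtain ⟨c, hc⟩ := (P2 j hje hj).2
        rw [hc w h1, h2]; simp
    have hpJ : ∀ i ∈ J, a i p ≠ 0 ∧ tv a p i = s i := by
      intro j hj
      have hje : j ≠ e := by rintro rfl; exact he hj
      have : a j p ≠ 0 := by
        intro h0
        have := tv_neg (P2 j hje h0).1
        rw [hxJ j hj, hyJ j hj] at this; simp at this
      exact ⟨this, by rw [(P1 j this).2, hxJ j hj]⟩
    obtain ⟨ε, -, C⟩ := compT (a := a) p y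
    set z := p + ε • y
    have hz : a e z = 0 := (C e).2.2 hpe hy
    have hz' : ∀ j, j ≠ e → a j z ≠ 0 := by
      intro j hj
      by_cases h0 : a j p = 0
      · exact ((C j).2.1 h0 (hy' j hj)).1
      · exact ((C j).1 h0).1
    have mem : ∀ (q : V) (c : Bool), a e q = 0 → (∀ j, j ≠ e → a j q ≠ 0) →
        (∀ j, a j p ≠ 0 → tv a q j = tv a p j) →
        A a {i | a i p ≠ 0} (tv a p) (Function.update (tv a q) e c) := by
      intro q c h1 h2 h3
      refine ⟨isT_upd h1 h2 (H.ne0 e) c, fun j hj => ?_⟩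
      rw [Function.update_of_ne (P1 j hj).1]; exact h3 j hj
    have mx := fun c => mem x c hx hx' fun j hj => (P1 j hj).2.symm
    have mz := fun c => mem z c hz hz' fun j hj => ((C j).1 hj).2
    refine ih z ?_ hz hz' (fun j hj => by rw [((C j).1 (hpJ j hj).1).2, (hpJ j hj).2]) ?_
    · have : hammingDist (Function.update (tv a z) e true) (Function.update (tv a y) e true) <
          hammingDist (Function.update (tv a x) e true) (Function.update (tv a y) e true) := by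
        unfold hammingDist
        apply Finset.card_lt_card
        rw [Finset.ssubset_iff_of_subset]
        · refine ⟨i0, ?_, ?_⟩
          · simp only [Finset.mem_filter, Finset.mem_univ, true_and,
              Function.update_of_ne hi0e]
            rw [tv_neg hi0]; simp
          · simp only [Finset.mem_filter, Finset.mem_univ, true_and,
              Function.update_of_ne hi0e]
            rw [((C i0).2.1 hp0 (hy' i0 hi0e)).2]; simp
        · intro j
          simp only [Finset.mem_filter, Finset.mem_univ, true_and]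
          by_cases hje : j = e
          · subst hje; simp
          rw [Function.update_of_ne hje, Function.update_of_ne hje, Function.update_of_ne hje]
          by_cases h0 : a j p = 0
          · rw [((C j).2.1 h0 (hy' j hje)).2]; simp
          · rw [((C j).1 h0).2, (P1 j h0).2]; exact id
      omega
    · refine edge_step H hp hm (K := {i | a i p ≠ 0}) (t := tv a p) (by simp [hpe])
        (fun u hu => ⟨hu.1, fun j hj => by rw [hu.2 j (hpJ j hj).1, (hpJ j hj).2]⟩)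
        (hL p hR hpJ) (mx true) (by rw [flu]; exact mx false) (mz true)
        (by rw [flu]; exact mz false) (by simp) (by simp) hg

lemma edge_all (H : Hyp a R) {J : Set E} {s : E → Bool} {e : E} (he : e ∉ J) {Φp Φm}
    (hp : Lift R (Half a J s e true) Φp) (hm : Lift R (Half a J s e false) Φm)
    (hL : ∀ p, Rk2 a p → (∀ i ∈ J, a i p ≠ 0 ∧ tv a p i = s i) → LTp a R p)
    {u v : E → Bool} (hu : Half a J s e true u) (hu' : IsT a (fl u e))
    (hv : Half a J s e true v) (hv' : IsT a (fl v e))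
    (hg : ∃ g, Φm (fl u e) = fl (Φp u) g) : ∃ g, Φm (fl v e) = fl (Φp v) g := by
  obtain ⟨x, hx, hx'⟩ := edge_pt hu.1.1 hu'
  obtain ⟨y, hy, hy'⟩ := edge_pt hv.1.1 hv'
  have up : ∀ (w : E → Bool) (q : V), w e = true → (∀ i, i ≠ e → a i q ≠ 0 ∧ tv a q i = w i) →
      Function.update (tv a q) e true = w := by
    intro w q h1 h2; funext j
    by_cases hj : j = e
    · subst hj; simp [h1]
    · rw [Function.update_of_ne hj, (h2 j hj).2]
  have hJ : ∀ i ∈ J, i ≠ e := by rintro i hi rfl; exact he hi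
  have := edge_pts H he hp hm hL y hy (fun i hi => (hy' i hi).1)
    (fun i hi => by rw [(hy' i (hJ i hi)).2, hv.1.2 i hi]) _ x le_rfl hx
    (fun i hi => (hx' i hi).1) (fun i hi => by rw [(hx' i (hJ i hi)).2, hu.1.2 i hi])
  rw [up u x hu.2 hx', up v y hv.2 hy'] at this
  exact this hg

lemma glue0 {J : Set E} {s : E → Bool} {e : E} {Φp Φm}
    (hp : Lift R (Half a J s e true) Φp) (hm : Lift R (Half a J s e false) Φm)
    (h : ∀ u, Half a J s e true u → A a J s (fl u e) → ∃ g, Φm (fl u e) = fl (Φp u) g) :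
    ∃ Φ, Lift R (A a J s) Φ := by
  refine ⟨fun u => if u e then Φp u else Φm u, fun u hu => ?_, fun u f h1 h2 => ?_⟩
  · cases hue : u e
    · simpa [hue] using hm.1 u ⟨hu, hue⟩
    · simpa [hue] using hp.1 u ⟨hu, hue⟩
  · by_cases hf : f = e
    · subst hf
      cases hue : u f
      · obtain ⟨g, hg⟩ := h (fl u f) ⟨h2, by simp [hue]⟩ (by rwa [fl_fl])
        rw [fl_fl] at hg
        exact ⟨g, by simp [hue, hg]⟩
      · simpa [hue] using h u ⟨h1, hue⟩ h2
    · have : fl u f e = u e := fl_ne _ (Ne.symm hf)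
      cases hue : u e
      · simpa [hue, this] using hm.2 u f ⟨h1, hue⟩ ⟨h2, by rw [this, hue]⟩
      · simpa [hue, this] using hp.2 u f ⟨h1, hue⟩ ⟨h2, by rw [this, hue]⟩

lemma glue (H : Hyp a R) {J : Set E} {s : E → Bool} {e : E} {Φp Φm}
    (hp : Lift R (Half a J s e true) Φp) (hm : Lift R (Half a J s e false) Φm)
    (h : ∀ u v, Half a J s e true u → IsT a (fl u e) → Half a J s e true v → IsT a (fl v e) →
      (∃ g, Φm (fl u e) = fl (Φp u) g) → ∃ g, Φm (fl v e) = fl (Φp v) g) :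
    ∃ Φ, Lift R (A a J s) Φ := by
  by_cases h0 : ∃ u, Half a J s e true u ∧ IsT a (fl u e) ∧ ∃ g, Φm (fl u e) = fl (Φp u) g
  · obtain ⟨u, h1, h2, h3⟩ := h0
    exact glue0 hp hm fun v hv hv' => h u v h1 h2 hv hv'.1 h3
  · refine glue0 hp hm.ng fun v hv hv' => ?_
    obtain ⟨g, hg⟩ := adj_pm H hv.1.1 hv'.1 (hp.1 v hv) (hm.1 _ ⟨hv', by simp [hv.2]⟩)
    rcases hg with hg | hg
    · exact absurd ⟨v, hv, hv'.1, g, hg⟩ h0
    · exact ⟨g, by simp [hg]⟩

lemma ind (H : Hyp a R) : ∀ (n : ℕ) (J : Finset E) (s : E → Bool), Jᶜ.card = n →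
    (∀ p, Rk2 a p → (∀ i ∈ (J : Set E), a i p ≠ 0 ∧ tv a p i = s i) → LTp a R p) →
    ∃ Φ, Lift R (A a (J : Set E) s) Φ := by
  intro n
  induction n with
  | zero =>
    intro J s hJ _
    refine ⟨R, fun u _ => Pm.refl _, fun u e h1 h2 => ?_⟩
    have he : e ∈ J := by
      by_contra h
      have : e ∈ Jᶜ := by simpa using h
      rw [Finset.card_eq_zero.mp hJ] at this; simp at this
    have := h2.2 e he
    rw [fl_self, h1.2 e he] at this; simp at this
  | succ n ih =>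
    intro J s hJ hL
    obtain ⟨e, he⟩ : Jᶜ.Nonempty := Finset.card_pos.mp (by omega)
    have he' : e ∉ (J : Set E) := by simpa using he
    have K : ∀ c, ∃ Φ, Lift R (Half a J s e c) Φ := by
      intro c
      obtain ⟨Φ, hΦ⟩ := ih (insert e J) (Function.update s e c)
        (by rw [Finset.compl_insert, Finset.card_erase_of_mem he]; omega) (fun p hp h => by
          refine hL p hp fun i hi => ?_
          have := h i (by simp only [Finset.coe_insert]; exact Or.inr hi)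
          rwa [Function.update_of_ne (by rintro rfl; exact he' hi)] at this)
      refine ⟨Φ, hΦ.mono fun u hu => ?_⟩
      rw [Finset.coe_insert]; exact (half_iff he' c u).mp hu
    obtain ⟨Φp, hp⟩ := K true
    obtain ⟨Φm, hm⟩ := K false
    exact glue H hp hm fun u v h1 h2 h3 h4 => edge_all H he' hp hm hL h1 h2 h3 h4

lemma top (H : Hyp a R) (e f : E) (hef : e ≠ f)
    (hL : ∀ p, Rk2 a p → (a e p ≠ 0 ∨ a f p ≠ 0) → LTp a R p) : ∃ Φ, Lift R (IsT a) Φ := by
  obtain ⟨Φp, hp0⟩ := ind H _ {e} (fun _ => true) rfl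
    (fun p hp h => hL p hp (Or.inl (h e (by simp)).1))
  have hp : Lift R (Half a ∅ (fun _ => true) e true) Φp :=
    hp0.mono fun u hu => ⟨hu.1.1, by simpa using hu.2⟩
  have hm : Lift R (Half a ∅ (fun _ => true) e false) fun u => Φp (ng u) := by
    have hh : ∀ u, Half a ∅ (fun _ => true) e false u → Half a ∅ (fun _ => true) e true (ng u) :=
      fun u hu => ⟨⟨hu.1.1.ng, by simp⟩, by simp [hu.2]⟩
    refine ⟨fun u hu => (H.neg u hu.1.1).trans (hp.1 _ (hh u hu)), fun u i h1 h2 => ?_⟩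
    have := hp.2 (ng u) i (hh u h1) (by rw [fl_ng]; exact hh _ h2)
    rwa [fl_ng] at this
  have same : ∀ u v, Half a ∅ (fun _ => true) e true u → IsT a (fl u e) →
      Half a ∅ (fun _ => true) e true v → IsT a (fl v e) → u f = v f →
      (∃ g, Φp (ng (fl u e)) = fl (Φp u) g) → ∃ g, Φp (ng (fl v e)) = fl (Φp v) g := by
    intro u v h1 h2 h3 h4 h5
    exact edge_all H (J := {f}) (s := u) (e := e) (by simpa using hef)
      (hp.mono fun w hw => ⟨⟨hw.1.1, by simp⟩, hw.2⟩)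
      (hm.mono fun w hw => ⟨⟨hw.1.1, by simp⟩, hw.2⟩)
      (fun p hp h => hL p hp (Or.inr (h f rfl).1))
      ⟨⟨h1.1.1, by simp⟩, h1.2⟩ h2 ⟨⟨h3.1.1, by simp [h5]⟩, h3.2⟩ h4
  obtain ⟨Φ, hΦ⟩ := glue H hp hm (fun u v h1 h2 h3 h4 hg => by
    by_cases h5 : u f = v f
    · exact same u v h1 h2 h3 h4 h5 hg
    · have e1 : fl (ng (fl u e)) e = ng u := by rw [fl_ng, fl_fl]
      refine same (ng (fl u e)) v ⟨⟨h2.ng, by simp⟩, by simp [h1.2]⟩
        (by rw [e1]; exact h1.1.1.ng) h3 h4 ?_ ?_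
      · rw [ng_apply, fl_ne _ hef.symm]
        revert h5; cases u f <;> cases v f <;> simp
      · obtain ⟨g, hg⟩ := hg
        exact ⟨g, by rw [e1, ng_ng, hg, fl_fl]⟩)
  exact ⟨Φ, hΦ.mono fun u hu => ⟨hu, by simp⟩⟩

end Pool.Agent.H.MP_d06cab_co
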