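import Pool.Agent.H.MP_d06cab_co.Lift

namespace Pool.Agent.H.MP_d06cab_co

section
variable {V : Type*} [AddCommGroup V] [Module ℝ V]
variable {E : Type*} [DecidableEq E] [Fintype E] {a : E → V →ₗ[ℝ] ℝ}
variable {G : Type*} [DecidableEq G] [Fintype G]
variable {R : (E → Bool) → G → Bool}

lemma exists_lift [FiniteDimensional ℝ V] (H : Hyp a R) (hV : 4 ≤ Module.finrank ℝ V)
    (hnc : ∀ w, (∀ i, a i w = 0) → w = 0) (hle : Fintype.card E ≤ Fintype.card G)
    (h5 : 5 ≤ Fintype.card G) : ∃ Φ, Lift R (IsT a) Φ := by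
  classical
  let Z : V → Finset E := fun p => Finset.univ.filter fun i => a i p = 0
  have hZ : ∀ p i, i ∈ Z p ↔ a i p = 0 := by simp [Z]
  have small : ∀ p, 2 * (Z p).card < Fintype.card G → LTp a R p := fun p h =>
    lt1 H _ _ (Z p) (fun i hi => by simpa [hZ] using hi) h
  by_cases hbad : ∃ p0, Rk2 a p0 ∧ Fintype.card G ≤ 2 * (Z p0).card
  swap
  · obtain ⟨e, f, hef⟩ := Fintype.exists_pair_of_one_lt_card (α := E) (by have := H.cE; omega)
    push Not at hbad
    exact top H e f hef fun p hp _ => small p (hbad p hp)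
  obtain ⟨p0, ⟨e0, f0, hef0, he0, hf0, K0⟩, hb0⟩ := hbad
  refine top H e0 f0 hef0 ?_
  rintro p ⟨e, i, hei, he, hi, K⟩ hp
  by_cases hsm : 2 * (Z p).card < Fintype.card G
  · exact small p hsm
  have ex0 : ∀ j j', j ≠ j' → a j p0 = 0 → a j' p0 = 0 → ∀ w, a j w = 0 → a j' w = 0 →
      ∀ k, a k p0 = 0 → a k w = 0 := by
    intro j j' hj h1 h2 w h3 h4 k hk
    have := exch _ _ _ _ (K0 j h1) (K0 j' h2) (H.smp _ _ hj) (H.smp _ _ hj.symm) w h3 h4
    exact K0 k hk w this.1 this.2
  have ex1 : ∀ j j', j ≠ j' → a j p = 0 → a j' p = 0 → ∀ w, a j w = 0 → a j' w = 0 →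
      ∀ k, a k p = 0 → a k w = 0 := by
    intro j j' hj h1 h2 w h3 h4 k hk
    have := exch _ _ _ _ (K j h1) (K j' h2) (H.smp _ _ hj) (H.smp _ _ hj.symm) w h3 h4
    exact K k hk w this.1 this.2
  have inter : (Z p0 ∩ Z p).card ≤ 1 := by
    rw [Finset.card_le_one]
    intro j hj j' hj'
    simp only [Finset.mem_inter, hZ] at hj hj'
    by_contra hne
    have := ex0 j j' hne hj.1 hj'.1 p hj.2 hj'.2
    rcases hp with hp | hp
    · exact hp (this _ he0)
    · exact hp (this _ hf0)
  have cu := Finset.card_union_add_card_inter (Z p0) (Z p)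
  by_cases hc : ∃ j0, a j0 p0 = 0 ∧ a j0 p = 0
  · obtain ⟨j0, h1, h2⟩ := hc
    obtain ⟨α, hα, hα'⟩ : ∃ α, j0 ≠ α ∧ a α p0 = 0 := by
      by_cases h : j0 = e0
      · exact ⟨f0, by rw [h]; exact hef0, hf0⟩
      · exact ⟨e0, h, he0⟩
    obtain ⟨β, hβ, hβ'⟩ : ∃ β, j0 ≠ β ∧ a β p = 0 := by
      by_cases h : j0 = e
      · exact ⟨i, by rw [h]; exact hei, hi⟩
      · exact ⟨e, h, he⟩
    obtain ⟨w, hw, w1, w2, w3⟩ := three hV (a j0) (a α) (a β)
    have hU : ∀ k ∈ Z p0 ∪ Z p, a k w = 0 := by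
      intro k hk
      simp only [Finset.mem_union, hZ] at hk
      rcases hk with hk | hk
      · exact ex0 j0 α hα h1 hα' w w1 w2 k hk
      · exact ex1 j0 β hβ h2 hβ' w w1 w3 k hk
    obtain ⟨c, hc⟩ : ∃ c, a c w ≠ 0 := by
      by_contra h; push Not at h; exact hw (hnc w h)
    have hcU : c ∉ Z p0 ∪ Z p := fun h => hc (hU c h)
    have hall : ∀ j, j ≠ c → a j w = 0 := by
      intro j hj
      apply hU
      by_contra hjU
      have := Finset.card_le_univ (insert j (insert c (Z p0 ∪ Z p)))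
      rw [Finset.card_insert_of_notMem (by simp only [Finset.mem_insert, not_or]; exact ⟨hj, hjU⟩),
        Finset.card_insert_of_notMem hcU] at this
      omega
    refine lt2 H h5 _ _ c (fun h => hcU (by simp only [Finset.mem_union, hZ]; exact Or.inr h)) ?_
    rintro u ⟨⟨x, hx, rfl⟩, -⟩
    have e1 : a c (x + (-2 * a c x / a c w) • w) = - a c x := by
      simp only [map_add, map_smul, smul_eq_mul]; field_simp; ring
    have e2 : ∀ j, j ≠ c → a j (x + (-2 * a c x / a c w) • w) = a j x := by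
      intro j hj; simp [hall j hj]
    refine ⟨x + (-2 * a c x / a c w) • w, fun j => ?_, funext fun j => ?_⟩
    · by_cases hj : j = c
      · subst hj; rw [e1]; simpa using hx j
      · rw [e2 j hj]; exact hx j
    · by_cases hj : j = c
      · subst hj; rw [fl_self]
        exact tv_neg (by rw [e1]; have := mul_self_pos.mpr (hx j); linarith)
      · rw [fl_ne _ hj]; unfold tv; rw [e2 j hj]
  · have hem : Z p0 ∩ Z p = ∅ := by
      rw [Finset.eq_empty_iff_forall_notMem]
      intro j hj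
      simp only [Finset.mem_inter, hZ] at hj
      exact hc ⟨j, hj⟩
    have hun : ∀ j, a j p0 = 0 ∨ a j p = 0 := by
      have : Z p0 ∪ Z p = Finset.univ := by
        apply Finset.eq_univ_of_card
        have := Finset.card_le_univ (Z p0 ∪ Z p)
        rw [hem, Finset.card_empty] at cu
        omega
      intro j
      have h := Finset.mem_univ j
      rw [← this] at h
      simpa [hZ] using h
    have hneg : ∀ j, a j p ≠ 0 → a j p * a j (-p) < 0 := fun j hj => by
      have := mul_self_pos.mpr hj; simpa using this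
    obtain ⟨q, hq, i0, hi0, hq0, P⟩ := geo (LinearMap.ker (a e) ⊓ LinearMap.ker (a i)) a p (-p)
      ⟨he, hi⟩ ⟨by simpa using he, by simpa using hi⟩ ⟨e0, hneg e0 fun h => hc ⟨e0, he0, h⟩⟩
    have hi0p : a i0 p ≠ 0 := by rintro h; simp [h] at hi0
    have P1 : ∀ j, j ≠ i0 → a j p ≠ 0 → 0 < a j q * a j p := by
      intro j hj hjp
      rcases P j hjp (by simpa using hjp) with ⟨-, -, c, hc⟩ | h
      · exfalso
        obtain ⟨w, hw, w1, w2, w3⟩ := three hV (a e) (a i) (a i0)
        apply hw; apply hnc; intro k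
        rcases hun k with hk | hk
        · exact ex0 j i0 hj ((hun j).resolve_right hjp) ((hun i0).resolve_right hi0p) w
            (by rw [hc w ⟨w1, w2⟩, w3]; simp) w3 k hk
        · exact K k hk w w1 w2
      · exact h
    refine lt2 H h5 _ _ i0 hi0p ?_
    rintro u ⟨⟨x, hx, rfl⟩, hu⟩
    obtain ⟨ε, -, C⟩ := compT (a := a) q (-p)
    obtain ⟨δ, -, D⟩ := compT (a := a) (q + ε • (-p)) x
    have key : ∀ j, a j (q + ε • (-p) + δ • x) ≠ 0 ∧
        tv a (q + ε • (-p) + δ • x) j = fl (tv a x) i0 j := by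
      intro j
      by_cases hj : j = i0
      · subst hj
        have h1 := (C j).2.1 hq0 (by simpa using hi0p)
        refine ⟨((D j).1 h1.1).1, ?_⟩
        rw [((D j).1 h1.1).2, h1.2, fl_self, hu j hi0p]
        exact tv_neg (by rw [mul_comm]; exact hi0)
      · rw [fl_ne _ hj]
        by_cases hjp : a j p = 0
        · exact (D j).2.1 ((C j).2.2 (K j hjp q hq.1 hq.2) (by simpa using hjp)) (hx j)
        · have h0 := P1 j hj hjp
          have h1 := (C j).1 (by rintro h; rw [h] at h0; simp at h0)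
          refine ⟨((D j).1 h1.1).1, ?_⟩
          rw [((D j).1 h1.1).2, h1.2, hu j hjp]; exact tv_pos h0
    exact ⟨_, fun j => (key j).1, funext fun j => (key j).2⟩

variable {W : Type*} [AddCommGroup W] [Module ℝ W] {b : G → W →ₗ[ℝ] ℝ}

lemma bez (H : Hyp a R) (hsb : Smp b) (hb0 : ∀ g, b g ≠ 0) (hRT : ∀ u, IsT a u → IsT b (R u))
    (hback : ∀ u g, IsT a u → IsT b (fl (R u) g) →
      ∃ e, IsT a (fl u e) ∧ Pm (fl (R u) g) (R (fl u e)))
    {Φ} (hΦ : Lift R (IsT a) Φ) :
    ∃ (σ : E ≃ G) (ρ : E → Bool), ∀ u, IsT a u ↔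
      IsT b fun g => xor (u (σ.symm g)) (ρ (σ.symm g)) := by
  have AE : ∀ u, A a ∅ (fun _ => true) u ↔ IsT a u := fun u => ⟨fun h => h.1, fun h => ⟨h, by simp⟩⟩
  have AG : ∀ u, A b ∅ (fun _ => true) u ↔ IsT b u := fun u => ⟨fun h => h.1, fun h => ⟨h, by simp⟩⟩
  have ΦT : ∀ u, IsT a u → IsT b (Φ u) := by
    intro u hu
    rcases hΦ.1 u hu with h | h <;> rw [h]
    · exact hRT u hu
    · exact (hRT u hu).ng
  have back : ∀ u g, IsT a u → IsT b (fl (Φ u) g) →
      ∃ e, IsT a (fl u e) ∧ Φ (fl u e) = fl (Φ u) g := by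
    intro u g hu h
    have h1 : IsT b (fl (R u) g) := by
      rcases (hΦ.1 u hu).symm.fl g with h' | h' <;> rw [h']
      · exact h
      · exact h.ng
    obtain ⟨e, he, hp⟩ := hback u g hu h1
    refine ⟨e, he, ?_⟩
    obtain ⟨g', hg'⟩ := hΦ.2 u e hu he
    have := (((hΦ.1 u hu).fl g).symm.trans hp).trans (hΦ.1 _ he)
    rw [hg'] at this ⊢
    exact pm_fl_eq H.cG this
  obtain ⟨e1⟩ : Nonempty E := Fintype.card_pos_iff.mp (by have := H.cE; omega)
  obtain ⟨g1⟩ : Nonempty G := Fintype.card_pos_iff.mp (by have := H.cG; omega)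
  obtain ⟨u0, hu0, -⟩ := exists_edge H.smp H.ne0 e1
  have surj : ∀ w, IsT b w → ∃ u, IsT a u ∧ Φ u = w := by
    intro w hw
    refine conn hsb ((AG _).mpr (ΦT u0 hu0)) (fun w => ∃ u, IsT a u ∧ Φ u = w) ⟨u0, hu0, rfl⟩
      ?_ w ((AG _).mpr hw)
    rintro w g - h2 ⟨u, hu, rfl⟩
    obtain ⟨e, he, h⟩ := back u g hu h2.1
    exact ⟨_, he, h⟩
  have pm : ∀ u v, IsT a u → IsT a v → Pm (Φ u) (Φ v) → Pm u v := fun u v hu hv h =>
    H.inj u v hu hv (((hΦ.1 u hu).trans h).trans (hΦ.1 v hv).symm)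
  have inj : ∀ u v, IsT a u → IsT a v → Φ u = Φ v → u = v := by
    intro u v hu hv h
    rcases pm u v hu hv (Or.inl h.symm) with h1 | h1
    · exact h1.symm
    · exfalso
      obtain ⟨v', hv', h2⟩ := surj _ (ΦT u hu).ng
      have h3 : Φ v' = Φ u := by
        rcases pm u v' hu hv' (Or.inr h2) with h3 | h3
        · rw [h3]
        · rw [h3, ← h1, h]
      have := congrFun (h3.symm.trans h2) g1
      simp at this
  have dist : ∀ u v, IsT a u → IsT a v → hammingDist (Φ u) (Φ v) = hammingDist u v := by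
    intro u v hu hv
    apply le_antisymm
    · refine conn' H.smp ((AE _).mpr hv) (fun u => hammingDist (Φ u) (Φ v) ≤ hammingDist u v)
        (by simp) ?_ u ((AE _).mpr hu)
      intro w e h1 h2 hne hq
      obtain ⟨g, hg⟩ := hΦ.2 (fl w e) e h2.1 (by rw [fl_fl]; exact h1.1)
      rw [fl_fl] at hg
      have := hd_fl_le (Φ (fl w e)) (Φ v) g
      have := hd_fl_ne hne
      rw [hg]; omega
    · refine conn' hsb ((AG _).mpr (ΦT v hv))
        (fun w => ∀ u, IsT a u → Φ u = w → hammingDist u v ≤ hammingDist w (Φ v))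
        (fun u hu h => by rw [inj u v hu hv h]; simp) ?_ (Φ u) ((AG _).mpr (ΦT u hu)) u hu rfl
      rintro w g - h2 hne hq u hu rfl
      obtain ⟨e, he, h⟩ := back u g hu h2.1
      have h3 := hq _ he h
      have h4 := hd_fl_le (fl u e) v e
      rw [fl_fl] at h4
      have := hd_fl_ne hne
      omega
  have cls : ∀ e, ∃ (g : G) (c : Bool), ∀ v, IsT a v → Φ v g = xor (v e) c := by
    intro e
    obtain ⟨u, hu, hu'⟩ := exists_edge H.smp H.ne0 e
    obtain ⟨g, hg⟩ := hΦ.2 u e hu hu'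
    refine ⟨g, xor (u e) (Φ u g), fun v hv => ?_⟩
    have d1 := dist u v hu hv
    have d2 := dist _ v hu' hv
    rw [hg] at d2
    by_cases h1 : u e = v e <;> by_cases h2 : Φ u g = Φ v g
    · rw [← h1, ← h2]; simp
    · have := hd_fl_eq h1; have := hd_fl_ne h2; omega
    · have := hd_fl_ne h1; have := hd_fl_eq h2; omega
    · revert h1 h2; cases u e <;> cases v e <;> cases Φ u g <;> cases Φ v g <;> simp
  choose σ ρ hσ using cls
  have σinj : Function.Injective σ := by
    intro e e' h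
    by_contra hne
    obtain ⟨u, hu, hu'⟩ := exists_edge H.smp H.ne0 e
    have h1 := hσ e u hu
    have h2 := hσ e _ hu'
    have h3 := hσ e' u hu
    have h4 := hσ e' _ hu'
    rw [fl_ne _ (Ne.symm hne), ← h3, ← h, h1, h2, fl_self] at h4
    revert h4; cases u e <;> cases ρ e <;> simp
  have σsur : Function.Surjective σ := by
    intro g
    obtain ⟨w, hw, hw'⟩ := exists_edge hsb hb0 g
    obtain ⟨u, hu, rfl⟩ := surj w hw
    obtain ⟨e, he, h⟩ := back u g hu hw'
    refine ⟨e, ?_⟩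
    by_contra hne
    have h1 := hσ e u hu
    have h2 := hσ e _ he
    rw [h, fl_ne _ hne, h1, fl_self] at h2
    revert h2; cases u e <;> cases ρ e <;> simp
  let τ := Equiv.ofBijective σ ⟨σinj, σsur⟩
  have hτ : ∀ v, IsT a v → Φ v = fun g => xor (v (τ.symm g)) (ρ (τ.symm g)) := by
    intro v hv; funext g
    rw [← hσ (τ.symm g) v hv]
    congr 1
    exact (τ.apply_symm_apply g).symm
  refine ⟨τ, ρ, fun u => ⟨fun hu => hτ u hu ▸ ΦT u hu, fun hu => ?_⟩⟩
  obtain ⟨v, hv, h⟩ := surj _ hu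
  rw [hτ v hv] at h
  have : v = u := by
    funext e
    have := congrFun h (τ e)
    simpa using this
  exact this ▸ hv

end

section
variable {V : Type*} [NormedAddCommGroup V] [NormedSpace ℝ V] [FiniteDimensional ℝ V]
variable {E : Type*} [DecidableEq E] [Fintype E] {a : E → V →ₗ[ℝ] ℝ}

def cmp (X : E → SignType) (u : E → Bool) : E → Bool :=
  fun i => if X i = 0 then u i else decide (X i = 1)

omit [DecidableEq E] in
lemma mandel (h0 : ∀ i, a i ≠ 0) (X : E → SignType) :
    (∃ x, ∀ i, SignType.sign (a i x) = X i) ↔ ∀ u, IsT a u → IsT a (cmp X u) := by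
  classical
  constructor
  · rintro ⟨x, hx⟩ u ⟨y, hy, rfl⟩
    obtain ⟨ε, -, C⟩ := compT (a := a) x y
    refine ⟨x + ε • y, fun i => ?_, funext fun i => ?_⟩
    · by_cases h : a i x = 0
      · exact ((C i).2.1 h (hy i)).1
      · exact ((C i).1 h).1
    · unfold cmp
      by_cases h : a i x = 0
      · rw [((C i).2.1 h (hy i)).2, ← hx i, h]; simp
      · rw [((C i).1 h).2, ← hx i, if_neg (by simpa using h)]
        simp [tv, sign_eq_one_iff]
  intro H
  by_contra hcon
  let C : Set V := {z | ∀ i, X i ≠ 0 → 0 < (X i : ℝ) * a i z}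
  let L : Submodule ℝ V := ⨅ j : {j // X j = 0}, LinearMap.ker (a j.1)
  have hCc : Convex ℝ C := by
    intro x hx y hy s t hs ht hst i hi
    have h1 := hx i hi
    have h2 := hy i hi
    simp only [map_add, map_smul, smul_eq_mul]
    rcases hs.eq_or_lt with rfl | hs'
    · have : t = 1 := by linarith
      subst this; simpa using h2
    · nlinarith [mul_pos hs' h1, mul_nonneg ht h2.le]
  have hCo : IsOpen C := by
    have : C = ⋂ i, {z | X i ≠ 0 → 0 < (X i : ℝ) * a i z} := by ext; simp [C]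
    rw [this]
    refine isOpen_iInter_of_finite fun i => ?_
    by_cases hi : X i = 0
    · simp [hi]
    · simp only [hi, ne_eq, not_false_eq_true, forall_const]
      have := (a i).continuous_of_finiteDimensional
      exact isOpen_lt continuous_const (by fun_prop)
  have hd : Disjoint C (L : Set V) := by
    rw [Set.disjoint_left]
    intro z hz hL
    apply hcon
    refine ⟨z, fun i => ?_⟩
    by_cases hi : X i = 0
    · have : a i z = 0 := (Submodule.mem_iInf _).mp hL ⟨i, hi⟩
      rw [this, hi]; simp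
    · have := hz i hi
      revert hi this
      cases X i <;> simp [sign_eq_one_iff, sign_eq_neg_one_iff]
  obtain ⟨f, r, hf1, hf2⟩ := geometric_hahn_banach_open hCc hCo L.convex hd
  have hr : r ≤ 0 := by simpa using hf2 0 L.zero_mem
  have hfL : ∀ w ∈ L, f w = 0 := by
    intro w hw
    by_contra hne
    have := hf2 _ (L.smul_mem ((r - 1) / f w) hw)
    simp only [map_smul, smul_eq_mul] at this
    rw [div_mul_cancel₀ _ hne] at this
    linarith
  obtain ⟨κ, g, hg, hsp, hli⟩ := exists_linearIndependent' ℝ (fun j : {j // X j = 0} => a j.1)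
  have : Finite κ := Finite.of_injective g hg
  have := Fintype.ofFinite κ
  have hmem : (f : V →ₗ[ℝ] ℝ) ∈ Submodule.span ℝ (Set.range fun j : {j // X j = 0} => a j.1) :=
    mem_span_of_iInf_ker_le_ker fun w hw => hfL w hw
  rw [← hsp] at hmem
  obtain ⟨μ, hμ⟩ := (Submodule.mem_span_range_iff_exists_fun ℝ).mp hmem
  obtain ⟨y, hy⟩ : ∃ y : V, ∀ k, a (g k).1 y = μ k := by
    let T : (κ → ℝ) →ₗ[ℝ] Module.Dual ℝ V := Fintype.linearCombination ℝ fun k => a (g k).1
    have hT : LinearMap.ker T = ⊥ := LinearMap.ker_eq_bot.mpr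
      (linearIndependent_iff_injective_fintypeLinearCombination.mp hli)
    obtain ⟨S, hS⟩ := T.exists_leftInverse_of_injective hT
    let φ : Module.Dual ℝ (Module.Dual ℝ V) := (Fintype.linearCombination ℝ μ).comp S
    refine ⟨(Module.evalEquiv ℝ V).symm φ, fun k => ?_⟩
    rw [Module.apply_evalEquiv_symm_apply]
    have e1 : a (g k).1 = T (Pi.single k 1) := by simp [T]
    have e2 : S (T (Pi.single k 1)) = Pi.single k 1 := LinearMap.congr_fun hS _
    simp only [φ, LinearMap.comp_apply]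
    rw [e1, e2]; simp
  obtain ⟨v, -, hv⟩ := generic ⊤ a
  have hv' : ∀ i, a i v ≠ 0 := fun i => hv i (by
    by_contra h; push Not at h; exact h0 i (LinearMap.ext fun w => h w trivial))
  obtain ⟨ε, -, D⟩ := compT (a := a) y v
  have hT : IsT a (tv a (y + ε • v)) := ⟨_, fun i => by
    by_cases h : a i y = 0
    · exact ((D i).2.1 h (hv' i)).1
    · exact ((D i).1 h).1, rfl⟩
  obtain ⟨z, hz, hz'⟩ := H _ hT
  have hzC : z ∈ C := by
    intro i hi
    have h1 := congrFun hz' i
    have h2 := hz i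
    simp only [tv, cmp, if_neg hi] at h1
    revert hi h1
    cases X i <;> simp
    exact fun h => lt_of_le_of_ne h h2
  have h1 := hf1 z hzC
  have h2 : f z = ∑ k, μ k * a (g k).1 z := by
    have := LinearMap.congr_fun hμ z
    simpa using this.symm
  have h3 : 0 ≤ ∑ k, μ k * a (g k).1 z := by
    refine Finset.sum_nonneg fun k _ => ?_
    by_cases hk : μ k = 0
    · simp [hk]
    have h4 : a (g k).1 y ≠ 0 := by rw [hy]; exact hk
    have h5 := congrFun hz' (g k).1
    simp only [cmp, if_pos (g k).2] at h5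
    rw [((D _).1 h4).2] at h5
    have := pos_of_tv (hz _) h4 h5
    rw [hy, mul_comm] at this; exact this.le
  linarith

end

end Pool.Agent.H.MP_d06cab_co
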