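import Pool.Agent.H.MP_d06cab_co.Geo

namespace Pool.Agent.H.MP_d06cab_co

section Bool
variable {E : Type*} [DecidableEq E]

def fl (u : E → Bool) (e : E) : E → Bool := fun i => if i = e then !u i else u i
def ng (u : E → Bool) : E → Bool := fun i => !u i
def Pm (u v : E → Bool) : Prop := v = u ∨ v = ng u

@[simp] lemma fl_self (u : E → Bool) (e : E) : fl u e e = !u e := by simp [fl]
lemma fl_ne (u : E → Bool) {e i : E} (h : i ≠ e) : fl u e i = u i := by simp [fl, h]
@[simp] lemma fl_fl (u : E → Bool) (e : E) : fl (fl u e) e = u := by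
  funext i; by_cases h : i = e <;> simp [fl, h]
lemma fl_comm (u : E → Bool) (e f : E) : fl (fl u e) f = fl (fl u f) e := by
  funext i; by_cases h : i = e <;> by_cases h' : i = f <;> simp_all [fl]
omit [DecidableEq E] in
@[simp] lemma ng_ng (u : E → Bool) : ng (ng u) = u := by funext i; simp [ng]
omit [DecidableEq E] in
@[simp] lemma ng_apply (u : E → Bool) (i : E) : ng u i = !u i := rfl
lemma fl_ng (u : E → Bool) (e : E) : fl (ng u) e = ng (fl u e) := by
  funext i; by_cases h : i = e <;> simp [fl, h]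
omit [DecidableEq E] in
lemma Pm.refl (u : E → Bool) : Pm u u := Or.inl rfl
omit [DecidableEq E] in
lemma Pm.symm {u v : E → Bool} (h : Pm u v) : Pm v u := by
  rcases h with rfl | rfl
  · exact Or.inl rfl
  · exact Or.inr (by simp)
omit [DecidableEq E] in
lemma Pm.trans {u v w : E → Bool} (h : Pm u v) (h' : Pm v w) : Pm u w := by
  rcases h with rfl | rfl <;> rcases h' with rfl | rfl <;> simp [Pm]
omit [DecidableEq E] in
lemma Pm.ng_right {u v : E → Bool} (h : Pm u v) : Pm u (ng v) := h.trans (Or.inr rfl)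
lemma Pm.fl {u v : E → Bool} (h : Pm u v) (e : E) : Pm (fl u e) (fl v e) := by
  rcases h with rfl | rfl
  · exact Or.inl rfl
  · exact Or.inr (fl_ng _ _)
omit [DecidableEq E] in
lemma Pm.eq_of {u v : E → Bool} (h : Pm u v) (i : E) (hi : u i = v i) : v = u := by
  rcases h with rfl | rfl
  · rfl
  · simp at hi

variable [Fintype E]

lemma exists_out (s : Finset E) (h : s.card < Fintype.card E) : ∃ i, i ∉ s := by
  by_contra hc
  push Not at hc
  have : s = Finset.univ := Finset.eq_univ_of_forall hc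
  rw [this] at h; simp at h

lemma out2 (h : 3 ≤ Fintype.card E) (a b : E) : ∃ i, i ≠ a ∧ i ≠ b := by
  obtain ⟨i, hi⟩ := exists_out {a, b} (lt_of_le_of_lt Finset.card_le_two (by omega))
  exact ⟨i, by simpa [not_or] using hi⟩

lemma out4 (h : 5 ≤ Fintype.card E) (a b c d : E) : ∃ i, i ≠ a ∧ i ≠ b ∧ i ≠ c ∧ i ≠ d := by
  obtain ⟨i, hi⟩ := exists_out {a, b, c, d} (lt_of_le_of_lt Finset.card_le_four (by omega))
  exact ⟨i, by simpa [not_or] using hi⟩

lemma pm_fl_eq (h : 3 ≤ Fintype.card E) {w : E → Bool} {a b : E} (H : Pm (fl w a) (fl w b)) :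
    fl w b = fl w a := by
  obtain ⟨i, h1, h2⟩ := out2 h a b
  exact H.eq_of i (by rw [fl_ne _ h1, fl_ne _ h2])

lemma fl_inj {w : E → Bool} {a b : E} (H : fl w a = fl w b) : a = b := by
  by_contra h
  have := congrFun H a
  rw [fl_self, fl_ne _ h] at this
  simp at this

lemma hd_fl_ne {u v : E → Bool} {e : E} (h : u e ≠ v e) :
    hammingDist (fl u e) v + 1 = hammingDist u v := by
  unfold hammingDist
  have : (Finset.univ.filter fun i => fl u e i ≠ v i) =
      (Finset.univ.filter fun i => u i ≠ v i).erase e := by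
    ext i
    by_cases hi : i = e
    · subst hi; revert h; cases hu : u i <;> cases hv : v i <;> simp [hu, hv]
    · simp [fl_ne _ hi, hi]
  rw [this, Finset.card_erase_add_one (by simpa using h)]

lemma hd_fl_eq {u v : E → Bool} {e : E} (h : u e = v e) :
    hammingDist (fl u e) v = hammingDist u v + 1 := by
  have := hd_fl_ne (u := fl u e) (v := v) (e := e) (by simp [h])
  rw [fl_fl] at this; omega

lemma hd_fl_le (u v : E → Bool) (e : E) : hammingDist (fl u e) v ≤ hammingDist u v + 1 := by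
  by_cases h : u e = v e
  · rw [hd_fl_eq h]
  · have := hd_fl_ne h; omega

lemma hd_ng (u : E → Bool) : hammingDist u (ng u) = Fintype.card E := by
  unfold hammingDist
  rw [← Finset.card_univ]; congr 1; ext i; simp

end Bool

variable {V : Type*} [AddCommGroup V] [Module ℝ V]
variable {E : Type*} [DecidableEq E] (a : E → V →ₗ[ℝ] ℝ)

noncomputable def tv (x : V) : E → Bool := fun i => decide (0 < a i x)
def IsT (u : E → Bool) : Prop := ∃ x, (∀ i, a i x ≠ 0) ∧ tv a x = u
def Smp : Prop := ∀ i j, i ≠ j → ∃ w, a i w = 0 ∧ a j w ≠ 0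
def A (J : Set E) (s u : E → Bool) : Prop := IsT a u ∧ ∀ i ∈ J, u i = s i

variable {a}

omit [DecidableEq E] in
lemma tv_pos {z x : V} {i : E} (h : 0 < a i z * a i x) : tv a z i = tv a x i := by
  unfold tv
  rcases pos_and_pos_or_neg_and_neg_of_mul_pos h with ⟨h1, h2⟩ | ⟨h1, h2⟩
  · simp [h1, h2]
  · simp [h1.le, h2.le, not_lt.mpr]

omit [DecidableEq E] in
lemma tv_neg {z x : V} {i : E} (h : a i z * a i x < 0) : tv a z i = !tv a x i := by
  unfold tv
  rcases mul_neg_iff.mp h with ⟨h1, h2⟩ | ⟨h1, h2⟩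
  · simp [h1, h2.le]
  · simp [h1.le, h2, not_lt.mpr]

omit [DecidableEq E] in
lemma neg_of_tv {z x : V} {i : E} (hz : a i z ≠ 0) (hx : a i x ≠ 0) (h : tv a z i ≠ tv a x i) :
    a i z * a i x < 0 := by
  rcases lt_or_gt_of_ne (mul_ne_zero hz hx) with h1 | h1
  · exact h1
  · exact absurd (tv_pos h1) h

omit [DecidableEq E] in
lemma pos_of_tv {z x : V} {i : E} (hz : a i z ≠ 0) (hx : a i x ≠ 0) (h : tv a z i = tv a x i) :
    0 < a i z * a i x := by
  rcases lt_or_gt_of_ne (mul_ne_zero hz hx) with h1 | h1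
  · have := tv_neg h1; rw [h] at this; simp at this
  · exact h1

omit [DecidableEq E] in
lemma IsT.ng {u : E → Bool} (h : IsT a u) : IsT a (ng u) := by
  obtain ⟨x, hx, rfl⟩ := h
  refine ⟨-x, fun i => by simpa using hx i, funext fun i => ?_⟩
  exact tv_neg (by have := mul_self_pos.mpr (hx i); simpa using this)

omit [DecidableEq E] in
lemma compT [Finite E] (p y : V) : ∃ ε : ℝ, 0 < ε ∧ ∀ i,
    (a i p ≠ 0 → a i (p + ε • y) ≠ 0 ∧ tv a (p + ε • y) i = tv a p i) ∧
    (a i p = 0 → a i y ≠ 0 → a i (p + ε • y) ≠ 0 ∧ tv a (p + ε • y) i = tv a y i) ∧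
    (a i p = 0 → a i y = 0 → a i (p + ε • y) = 0) := by
  obtain ⟨ε, hε, h⟩ := comp a p y
  refine ⟨ε, hε, fun i => ⟨fun hp => ?_, fun hp hy => ?_, fun hp hy => by simp [hp, hy]⟩⟩
  · have := h i hp
    exact ⟨by rintro h0; rw [h0] at this; simp at this, tv_pos this⟩
  · have e : a i (p + ε • y) = ε * a i y := by simp [hp]
    refine ⟨by rw [e]; exact mul_ne_zero hε.ne' hy, tv_pos ?_⟩
    rw [e, mul_assoc]; exact mul_pos hε (mul_self_pos.mpr hy)

variable [Fintype E]

lemma gl (hs : Smp a) {u v : E → Bool} (hu : IsT a u) (hv : IsT a v) (h : u ≠ v) :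
    ∃ e, u e ≠ v e ∧ IsT a (fl u e) := by
  obtain ⟨x, hx, rfl⟩ := hu
  obtain ⟨y, hy, rfl⟩ := hv
  obtain ⟨i, hi⟩ := Function.ne_iff.mp h
  obtain ⟨p, -, e, he, hp, H⟩ := geo ⊤ a x y trivial trivial ⟨i, neg_of_tv (hx i) (hy i) hi⟩
  have hne : tv a x e = !tv a y e := tv_neg he
  refine ⟨e, by rw [hne]; simp, ?_⟩
  obtain ⟨ε, -, C⟩ := compT (a := a) p y
  have key : ∀ j, j ≠ e → 0 < a j p * a j x := by
    intro j hj
    rcases H j (hx j) (hy j) with ⟨-, -, c, hc⟩ | h
    · obtain ⟨w, h1, h2⟩ := hs e j hj.symm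
      exact absurd (by rw [hc w trivial, h1]; simp) h2
    · exact h
  have key' : ∀ j, j ≠ e → a j p ≠ 0 := fun j hj h0 => by
    have := key j hj; rw [h0] at this; simp at this
  refine ⟨p + ε • y, fun j => ?_, funext fun j => ?_⟩
  · by_cases hj : j = e
    · subst hj; exact ((C j).2.1 hp (hy j)).1
    · exact ((C j).1 (key' j hj)).1
  · by_cases hj : j = e
    · subst hj; rw [((C j).2.1 hp (hy j)).2, fl_self, hne]; simp
    · rw [((C j).1 (key' j hj)).2, fl_ne _ hj]; exact tv_pos (key j hj)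

lemma glA (hs : Smp a) {J : Set E} {s u v : E → Bool} (hu : A a J s u) (hv : A a J s v)
    (h : u ≠ v) : ∃ e, u e ≠ v e ∧ A a J s (fl u e) := by
  obtain ⟨e, he, hT⟩ := gl hs hu.1 hv.1 h
  refine ⟨e, he, hT, fun i hi => ?_⟩
  have : i ≠ e := by rintro rfl; exact he (by rw [hu.2 i hi, hv.2 i hi])
  rw [fl_ne _ this]; exact hu.2 i hi

lemma conn' (hs : Smp a) {J : Set E} {s v : E → Bool} (hv : A a J s v) (Q : (E → Bool) → Prop)
    (hQ : Q v) (step : ∀ w e, A a J s w → A a J s (fl w e) → w e ≠ v e → Q (fl w e) → Q w) :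
    ∀ u, A a J s u → Q u := by
  suffices H : ∀ n u, hammingDist u v = n → A a J s u → Q u from fun u hu => H _ u rfl hu
  intro n
  induction n with
  | zero => intro u h _; rw [hammingDist_eq_zero.mp h]; exact hQ
  | succ n ih =>
    intro u h hu
    have hne : u ≠ v := by rintro rfl; simp at h
    obtain ⟨e, he, hA⟩ := glA hs hu hv hne
    exact step u e hu hA he (ih _ (by have := hd_fl_ne he; omega) hA)

lemma conn (hs : Smp a) {J : Set E} {s v : E → Bool} (hv : A a J s v) (Q : (E → Bool) → Prop)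
    (hQ : Q v) (step : ∀ w e, A a J s w → A a J s (fl w e) → Q w → Q (fl w e)) :
    ∀ u, A a J s u → Q u :=
  conn' hs hv Q hQ fun w e h1 h2 _ hq => by
    have := step (fl w e) e h2 (by rwa [fl_fl]) hq
    rwa [fl_fl] at this

omit [Fintype E] in
lemma edge_pt {u : E → Bool} {e : E} (h1 : IsT a u) (h2 : IsT a (fl u e)) :
    ∃ x, a e x = 0 ∧ ∀ i, i ≠ e → a i x ≠ 0 ∧ tv a x i = u i := by
  obtain ⟨x, hx, rfl⟩ := h1
  obtain ⟨y, hy, h⟩ := h2
  have he : a e y * a e x < 0 := neg_of_tv (hy e) (hx e) (by rw [h]; simp)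
  refine ⟨(a e y * a e y) • x + (-(a e y * a e x)) • y, by simp; ring, fun i hi => ?_⟩
  have h3 : 0 < a i y * a i x := pos_of_tv (hy i) (hx i) (by rw [h, fl_ne _ hi])
  have : 0 < a i ((a e y * a e y) • x + (-(a e y * a e x)) • y) * a i x := by
    simp only [map_add, map_smul, smul_eq_mul]
    have := mul_pos (mul_self_pos.mpr (hy e)) (mul_self_pos.mpr (hx i))
    nlinarith [mul_pos (neg_pos.mpr he) h3]
  exact ⟨by rintro h0; rw [h0] at this; simp at this, tv_pos this⟩

lemma isT_upd {x : V} {e : E} (hx : a e x = 0) (hx' : ∀ i, i ≠ e → a i x ≠ 0) (he : a e ≠ 0)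
    (c : Bool) : IsT a (Function.update (tv a x) e c) := by
  obtain ⟨y, hy⟩ : ∃ y, a e y ≠ 0 ∧ tv a y e = c := by
    obtain ⟨y, hy⟩ : ∃ y, a e y ≠ 0 := by
      by_contra h; push Not at h; exact he (LinearMap.ext h)
    by_cases h : tv a y e = c
    · exact ⟨y, hy, h⟩
    · refine ⟨-y, by simpa using hy, ?_⟩
      have : tv a (-y) e = !tv a y e :=
        tv_neg (by have := mul_self_pos.mpr hy; simpa using this)
      rw [this]; revert h; cases tv a y e <;> cases c <;> simp
  obtain ⟨ε, -, C⟩ := compT (a := a) x y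
  refine ⟨x + ε • y, fun j => ?_, funext fun j => ?_⟩
  · by_cases hj : j = e
    · subst hj; exact ((C j).2.1 hx hy.1).1
    · exact ((C j).1 (hx' j hj)).1
  · by_cases hj : j = e
    · subst hj; rw [((C j).2.1 hx hy.1).2, hy.2]; simp
    · rw [((C j).1 (hx' j hj)).2, Function.update_of_ne hj]

lemma exists_edge (hs : Smp a) (h0 : ∀ i, a i ≠ 0) (e : E) :
    ∃ u, IsT a u ∧ IsT a (fl u e) := by
  obtain ⟨x, hx, H⟩ := generic (LinearMap.ker (a e)) a
  have hx' : ∀ i, i ≠ e → a i x ≠ 0 := fun i hi => H i (hs e i hi.symm)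
  refine ⟨_, isT_upd hx hx' (h0 e) true, ?_⟩
  have := isT_upd hx hx' (h0 e) false
  convert this using 1
  funext j
  by_cases hj : j = e
  · subst hj; simp
  · rw [fl_ne _ hj, Function.update_of_ne hj, Function.update_of_ne hj]

end Pool.Agent.H.MP_d06cab_co
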